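import Pool.Agent.Lib.MP_8c24b6_lc_det.Defs

/-!
Module 8 (45 min). Greedy chain.

Strong induction on `P.card`, with the additional information that every member of `Q` is `(p.1 / L, p.2 / L)` for
some `p ∈ P`.  If `P` is not empty let `p0` be the member with the least first (hence least second) coordinate,
`i = p0.1 / L`, `j = p0.2 / L`, `P' = {p ∈ P : i < p.1 / L, j < p.2 / L}`.  The members of `P` outside `P'` have
`p.1 / L = i` or `p.2 / L = j` (all have `p.1 ≥ p0.1`, `p.2 ≥ p0.2`), at most `L` of each kind (both coordinates are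
injective on `P`).  Take `Q = {(i,j)} ∪ Q'`.
-/

namespace MP8D

open MP8C Finset

private theorem chain_col {L i : ℕ} (hL : 0 < L) (P : Finset (ℕ × ℕ)) (g : ℕ × ℕ → ℕ)
    (hg : ∀ p ∈ P, ∀ q ∈ P, g p = g q → p = q) : (P.filter (fun p => g p / L = i)).card ≤ L := by
  calc (P.filter (fun p => g p / L = i)).card ≤ (Ico (i * L) (i * L + L)).card := by
        refine Finset.card_le_card_of_injOn g ?_ ?_
        · intro p hp
          rw [mem_coe, mem_filter] at hp
          rw [mem_coe, mem_Ico]
          have h1 := Nat.div_mul_le_self (g p) L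
          have h2 := Nat.lt_div_mul_add hL (a := g p)
          rw [hp.2] at h1 h2
          exact ⟨h1, h2⟩
        · intro p hp q hq h
          rw [mem_coe, mem_filter] at hp hq
          exact hg p hp.1 q hq.1 h
    _ = L := by simp

private theorem chain_aux {L : ℕ} (hL : 0 < L) (n : ℕ) : ∀ P : Finset (ℕ × ℕ), P.card ≤ n →
    (∀ p ∈ P, ∀ q ∈ P, (p.1 < q.1 ↔ p.2 < q.2)) →
    ∃ Q : Finset (ℕ × ℕ), (∀ c ∈ Q, ∃ p ∈ P, c = (p.1 / L, p.2 / L)) ∧
      (∀ c ∈ Q, ∀ d ∈ Q, (c.1 < d.1 ↔ c.2 < d.2)) ∧ P.card ≤ 2 * L * Q.card := by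
  classical
  induction n with
  | zero =>
    intro P hP _
    refine ⟨∅, by simp, by simp, by omega⟩
  | succ n ih =>
    intro P hP hord
    by_cases hne : P.Nonempty
    · obtain ⟨p0, hp0, hmin⟩ := Finset.exists_min_image P (fun p => p.1) hne
      have hinj1 : ∀ p ∈ P, ∀ q ∈ P, p.1 = q.1 → p = q := by
        intro p hp q hq h
        have h1 := hord p hp q hq
        have h2 := hord q hq p hp
        refine Prod.ext h ?_
        rcases lt_trichotomy p.2 q.2 with h3 | h3 | h3
        · have := h1.2 h3; omega
        · exact h3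
        · have := h2.2 h3; omega
      have hinj2 : ∀ p ∈ P, ∀ q ∈ P, p.2 = q.2 → p = q := by
        intro p hp q hq h
        have h1 := hord p hp q hq
        have h2 := hord q hq p hp
        refine Prod.ext ?_ h
        rcases lt_trichotomy p.1 q.1 with h3 | h3 | h3
        · have := h1.1 h3; omega
        · exact h3
        · have := h2.1 h3; omega
      have hmin2 : ∀ p ∈ P, p0.2 ≤ p.2 := by
        intro p hp
        rcases lt_or_eq_of_le (hmin p hp) with h | h
        · exact ((hord p0 hp0 p hp).1 h).le
        · rw [hinj1 p0 hp0 p hp h]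
      set P' := P.filter (fun p => p0.1 / L < p.1 / L ∧ p0.2 / L < p.2 / L) with hP'
      have hcard : P.card ≤ L + L + P'.card := by
        have h1 : P ⊆ (P.filter (fun p => p.1 / L = p0.1 / L) ∪ P.filter (fun p => p.2 / L = p0.2 / L)) ∪ P' := by
          intro p hp
          have h2 := Nat.div_le_div_right (c := L) (hmin p hp)
          have h3 := Nat.div_le_div_right (c := L) (hmin2 p hp)
          simp only [hP', mem_union, mem_filter]
          by_cases e1 : p.1 / L = p0.1 / L
          · exact Or.inl (Or.inl ⟨hp, e1⟩)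
          · by_cases e2 : p.2 / L = p0.2 / L
            · exact Or.inl (Or.inr ⟨hp, e2⟩)
            · refine Or.inr ⟨hp, ?_, ?_⟩
              · omega
              · omega
        have h4 := Finset.card_le_card h1
        have h5 := Finset.card_union_le (P.filter (fun p => p.1 / L = p0.1 / L) ∪
          P.filter (fun p => p.2 / L = p0.2 / L)) P'
        have h6 := Finset.card_union_le (P.filter (fun p => p.1 / L = p0.1 / L))
          (P.filter (fun p => p.2 / L = p0.2 / L))
        have h7 := chain_col hL (i := p0.1 / L) P (fun p => p.1) hinj1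
        have h8 := chain_col hL (i := p0.2 / L) P (fun p => p.2) hinj2
        omega
      have hlt : P'.card < P.card := by
        refine Finset.card_lt_card ?_
        refine ⟨Finset.filter_subset _ _, ?_⟩
        intro hsub
        have := hsub hp0
        rw [hP', mem_filter] at this
        omega
      obtain ⟨Q, hQ1, hQ2, hQ3⟩ := ih P' (by omega) (by
        intro p hp q hq
        rw [hP', mem_filter] at hp hq
        exact hord p hp.1 q hq.1)
      have hbig : ∀ c ∈ Q, p0.1 / L < c.1 ∧ p0.2 / L < c.2 := by
        intro c hc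
        obtain ⟨p, hp, rfl⟩ := hQ1 c hc
        rw [hP', mem_filter] at hp
        exact hp.2
      refine ⟨insert (p0.1 / L, p0.2 / L) Q, ?_, ?_, ?_⟩
      · intro c hc
        rw [mem_insert] at hc
        rcases hc with rfl | hc
        · exact ⟨p0, hp0, rfl⟩
        · obtain ⟨p, hp, rfl⟩ := hQ1 c hc
          rw [hP', mem_filter] at hp
          exact ⟨p, hp.1, rfl⟩
      · intro c hc d hd
        rw [mem_insert] at hc hd
        rcases hc with rfl | hc
        · rcases hd with rfl | hd
          · simp
          · have := hbig d hd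
            simp [this.1, this.2]
        · rcases hd with rfl | hd
          · have := hbig c hc
            simp only
            constructor
            · intro h; omega
            · intro h; omega
          · exact hQ2 c hc d hd
      · rw [Finset.card_insert_of_notMem]
        · have : 2 * L * (Q.card + 1) = 2 * L * Q.card + 2 * L := by ring
          omega
        · intro hmem
          have := hbig _ hmem
          simp at this
    · rw [Finset.not_nonempty_iff_eq_empty] at hne
      subst hne
      exact ⟨∅, by simp, by simp, by simp⟩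

theorem chain_of_align {L M : ℕ} (hL : 0 < L) (t t' : ℕ → ℕ) (P : Finset (ℕ × ℕ))
    (h1 : ∀ p ∈ P, p.1 < M * L ∧ p.2 < M * L ∧ t (p.1 / L) = t' (p.2 / L))
    (h2 : ∀ p ∈ P, ∀ q ∈ P, (p.1 < q.1 ↔ p.2 < q.2)) :
    ∃ Q : Finset (ℕ × ℕ), Chain t t' M Q ∧ P.card ≤ 2 * L * Q.card := by
  obtain ⟨Q, hQ1, hQ2, hQ3⟩ := chain_aux hL P.card P le_rfl h2
  refine ⟨Q, ⟨?_, hQ2⟩, hQ3⟩
  intro c hc
  obtain ⟨p, hp, rfl⟩ := hQ1 c hc
  obtain ⟨e1, e2, e3⟩ := h1 p hp
  exact ⟨Nat.div_lt_of_lt_mul (by rwa [mul_comm]), Nat.div_lt_of_lt_mul (by rwa [mul_comm]), e3⟩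

end MP8D
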