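import Pool.Agent.Lib.MP_8c24b6_lc_det.Cnt

/-!
Module 2 (45 min). Counting letters of the words with pieces.

`L = B^(2T)`; all types are `< T`, so `f_a = B^(2a) ≤ B^(2T-2)` and `2 f_a ∣ L` (`B` even: `L = f_a B^(2(T-a))`,
`2(T-a) ≥ 2`).
`cntC_word`: every complete piece has exactly `L/2` letters `C` (`cntC_exact` at `q L` and `(q+1) L`), so
`#C` of the prefix of length `x` is `q L / 2 + (cnt C (lt a) 0 x - cnt C (lt a) 0 (q L)) = cnt C (lt a) 0 x` with
`q = x / L`, `a = t q`; then `cntC_bound`.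
-/

namespace MP8D

open MP8C Finset

/-- a multiple of `P` between two numbers with different quotients -/
theorem CntW_dvd {P x y : ℕ} (hP : 0 < P) (h : x / P < y / P) : ∃ i, x < i ∧ i ≤ y ∧ P ∣ i :=
  ⟨y / P * P, (Nat.div_lt_iff_lt_mul hP).1 h, Nat.div_mul_le_self y P, Dvd.intro_left _ rfl⟩

/-- inside one piece the word is the periodic word of its type -/
theorem word_eq {B T : ℕ} (t : ℕ → ℕ) {x y : ℕ} (h : x / B ^ (2 * T) = y / B ^ (2 * T)) :
    word B T t y = lt B (t (x / B ^ (2 * T))) y := by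
  unfold word
  rw [h]

/-- counts inside one piece, at an intermediate end -/
theorem CntW_word {B T : ℕ} (β : Base) (t : ℕ → ℕ) {x y q : ℕ} (hx : q ≤ x / B ^ (2 * T))
    (h : ∀ i, x ≤ i → i < y → i / B ^ (2 * T) ≤ q) (hxy : x ≤ y) :
    cnt β (lt B (t q)) 0 x + cnt β (word B T t) x y = cnt β (lt B (t q)) 0 y := by
  rw [cnt_add β (lt B (t q)) (Nat.zero_le x) hxy]
  congr 1
  refine cnt_congr fun i h1 h2 => ?_
  have h3 : x / B ^ (2 * T) ≤ i / B ^ (2 * T) := Nat.div_le_div_right h1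
  have h4 : i / B ^ (2 * T) = q := le_antisymm (h i h1 h2) (hx.trans h3)
  unfold word
  rw [h4]

/-- counts inside one piece -/
theorem cnt_word {B T : ℕ} (β : Base) (t : ℕ → ℕ) {x y : ℕ} (hxy : x ≤ y)
    (h : x / B ^ (2 * T) = y / B ^ (2 * T)) :
    cnt β (lt B (t (x / B ^ (2 * T)))) 0 x + cnt β (word B T t) x y =
      cnt β (lt B (t (x / B ^ (2 * T)))) 0 y := by
  refine CntW_word β t le_rfl (fun i _ h2 => ?_) hxy
  rw [h]
  exact Nat.div_le_div_right h2.le

/-- half of the letters of the periodic word before a multiple of the piece length are `C` -/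
theorem CntW_lt {B T a : ℕ} (hB : 2 ≤ B) (hB2 : 2 ∣ B) (ha : a < T) (q : ℕ) :
    2 * cnt Base.C (lt B a) 0 (q * B ^ (2 * T)) = q * B ^ (2 * T) := by
  obtain ⟨b, hb⟩ := hB2
  have e : q * B ^ (2 * T) = 2 * B ^ (2 * a) * (q * (b * B ^ (2 * (T - a) - 1))) := by
    have h1 : 2 * T = 2 * a + ((2 * (T - a) - 1) + 1) := by omega
    rw [h1, pow_add, pow_succ]
    have h2 : B ^ (2 * (T - a) - 1) * B = B ^ (2 * (T - a) - 1) * (2 * b) := by rw [← hb]
    rw [h2]
    ring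
  rw [e, cntC_exact hB]
  ring

/-- half of the letters of the complete pieces are `C` -/
theorem CntW_pieces {B T : ℕ} (hB : 2 ≤ B) (hB2 : 2 ∣ B) {t : ℕ → ℕ} (ht : ∀ i, t i < T) (q : ℕ) :
    2 * cnt Base.C (word B T t) 0 (q * B ^ (2 * T)) = q * B ^ (2 * T) := by
  have hL : 0 < B ^ (2 * T) := by positivity
  induction q with
  | zero => simp [cnt]
  | succ q ih =>
    have h1 := cnt_add Base.C (word B T t) (Nat.zero_le (q * B ^ (2 * T)))
      (Nat.mul_le_mul_right (B ^ (2 * T)) (Nat.le_succ q))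
    have h2 := CntW_word (B := B) (T := T) Base.C t (x := q * B ^ (2 * T)) (y := (q + 1) * B ^ (2 * T)) (q := q)
      (by rw [Nat.mul_div_cancel _ hL])
      (fun i _ h4 => Nat.lt_succ_iff.1 ((Nat.div_lt_iff_lt_mul hL).2 h4))
      (Nat.mul_le_mul_right (B ^ (2 * T)) (Nat.le_succ q))
    have h3 := CntW_lt hB hB2 (ht q) q
    have h4 := CntW_lt hB hB2 (ht q) (q + 1)
    have h5 : (q + 1) * B ^ (2 * T) = q * B ^ (2 * T) + B ^ (2 * T) := by ring
    simp only [Nat.succ_eq_add_one] at h1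
    omega

/-- the number of `C` in a prefix of the word -/
theorem cntC_word {B T : ℕ} (hB : 2 ≤ B) (hB2 : 2 ∣ B) {t : ℕ → ℕ} (ht : ∀ i, t i < T) (x : ℕ) :
    x ≤ 2 * cnt Base.C (word B T t) 0 x + 2 * B ^ (2 * T - 2) ∧
      2 * cnt Base.C (word B T t) 0 x ≤ x + 2 * B ^ (2 * T - 2) := by
  have hL : 0 < B ^ (2 * T) := by positivity
  set q := x / B ^ (2 * T) with hq
  have hqx : q * B ^ (2 * T) ≤ x := Nat.div_mul_le_self x _
  have h1 := cnt_add Base.C (word B T t) (Nat.zero_le (q * B ^ (2 * T))) hqx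
  have h2 := CntW_word (B := B) (T := T) Base.C t (x := q * B ^ (2 * T)) (y := x) (q := q)
      (by rw [Nat.mul_div_cancel _ hL]) (fun i _ h4 => Nat.div_le_div_right h4.le) hqx
  have h3 := CntW_lt hB hB2 (ht q) q
  have h4 := CntW_pieces hB hB2 ht q
  have h5 := cntC_bound hB (t q) x
  have h6 : B ^ (2 * t q) ≤ B ^ (2 * T - 2) := by
    have := ht q
    exact Nat.pow_le_pow_right (by omega) (by omega)
  omega

/-- if both `A` and `U` occur in `[x,y)` and `[x,y]` lies in one piece then a phase boundary lies in `(x,y]` -/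
theorem phase_boundary {B T : ℕ} (hB : 2 ≤ B) (t : ℕ → ℕ) {x y : ℕ}
    (h : x / B ^ (2 * T) = y / B ^ (2 * T))
    (hA : 0 < cnt Base.A (word B T t) x y) (hU : 0 < cnt Base.U (word B T t) x y) :
    ∃ i, x < i ∧ i ≤ y ∧ 2 * B ^ (2 * t (x / B ^ (2 * T)) + 1) ∣ i := by
  have hP : 0 < 2 * B ^ (2 * t (x / B ^ (2 * T)) + 1) := by positivity
  have key : ∀ β, 0 < cnt β (word B T t) x y → ∃ i, x ≤ i ∧ i < y ∧
      lt B (t (x / B ^ (2 * T))) i = β := by
    intro β hβ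
    obtain ⟨i, hi⟩ := card_pos.1 hβ
    rw [mem_filter, mem_Ico] at hi
    have e : x / B ^ (2 * T) = i / B ^ (2 * T) :=
      le_antisymm (Nat.div_le_div_right hi.1.1) (h ▸ Nat.div_le_div_right hi.1.2.le)
    exact ⟨i, hi.1.1, hi.1.2, by rw [← word_eq t e]; exact hi.2⟩
  obtain ⟨i, hi1, hi2, hi3⟩ := key _ hA
  obtain ⟨j, hj1, hj2, hj3⟩ := key _ hU
  set a := t (x / B ^ (2 * T)) with ha
  have ei : i / (2 * B ^ (2 * a + 1)) % 2 = 0 := by
    unfold lt at hi3
    split_ifs at hi3 with c1 c2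
    exact c2
  have ej : j / (2 * B ^ (2 * a + 1)) % 2 ≠ 0 := by
    unfold lt at hj3
    split_ifs at hj3 with c1 c2
    exact c2
  rcases lt_trichotomy (i / (2 * B ^ (2 * a + 1))) (j / (2 * B ^ (2 * a + 1))) with h1 | h1 | h1
  · obtain ⟨m, hm1, hm2, hm3⟩ := CntW_dvd hP h1
    exact ⟨m, by omega, by omega, hm3⟩
  · rw [h1] at ei; exact absurd ei ej
  · obtain ⟨m, hm1, hm2, hm3⟩ := CntW_dvd hP h1
    exact ⟨m, by omega, by omega, hm3⟩

/-- if the letters at `x` and `y` differ, `[x,y]` in one piece, then a block boundary lies in `(x,y]` -/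
theorem block_boundary {B T : ℕ} (hB : 2 ≤ B) (t : ℕ → ℕ) {x y : ℕ} (hxy : x ≤ y)
    (h : x / B ^ (2 * T) = y / B ^ (2 * T)) (hne : word B T t x ≠ word B T t y) :
    ∃ i, x < i ∧ i ≤ y ∧ B ^ (2 * t (x / B ^ (2 * T))) ∣ i := by
  have hP : 0 < B ^ (2 * t (x / B ^ (2 * T))) := by positivity
  refine CntW_dvd hP (lt_of_le_of_ne (Nat.div_le_div_right hxy) fun he => hne ?_)
  rw [word_eq t h, word_eq t (rfl : x / B ^ (2 * T) = x / B ^ (2 * T))]
  exact lt_eq_of_div_eq he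

end MP8D
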