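import Pool.Agent.Lib.MP_8c24b6_lc_det.Defs

/-!
Module 11 (90 min). Many type sequences without long common subsequences.

`D ≥ 1`, `T = 8^D`, `k ≥ M / D` (that is `M ≤ D k`).  There is a set `𝒞` of at least `2^M` functions `Fin M → Fin T`
such that for `c ≠ c'` in `𝒞` no chain of size `k` exists.

(1) Ball: for fixed `c` the number of `c'` with a chain of size `k` is at most `4^M T^(M-k)`: a chain `Q` of size `k`
determines the sets `I`, `J` of its first and second coordinates (`k`-subsets of `range M`), and the members of `Q` are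
`(I_s, J_s)`, `s < k`, where `I_s`, `J_s` are the elements in increasing order (`Finset.orderEmbOfFin_unique`, or: the
rank of `p.1` in `I` is the rank of `p.2` in `J`, being the number of `q ∈ Q` with `q.1 < p.1`).  So for given `I`, `J` the
values of `c'` on `J` are determined by `c`, and `c'` is determined by its restriction to the complement of `J`
(`M - k` elements): at most `T^(M-k)` functions; at most `2^M · 2^M` pairs `(I,J)`.
(2) Let `𝒞` be a set of functions of maximal cardinality which is pairwise chain free.  Every function outside `𝒞` has a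
chain of size `k` with a member of `𝒞` (a chain of `(c,c')` gives one of `(c',c)`), and every member of `𝒞` has one
with itself (if `k ≤ M`; the diagonal).  So `T^M ≤ |𝒞| 4^M T^(M-k)`, `T^k ≤ 4^M |𝒞|`, `T^k = 8^(Dk) ≥ 8^M`.
If `k > M` there are no chains of size `k` at all and all `T^M` functions work.
Types as functions on `ℕ`: `ext c i = c i` for `i < M`, `0` for `i ≥ M`.
-/

namespace MP8D

open MP8C Finset

/-- a function `Fin M → Fin T` as a function on `ℕ` -/
def ext {M T : ℕ} (c : Fin M → Fin T) (i : ℕ) : ℕ := if h : i < M then (c ⟨i, h⟩ : ℕ) else 0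

theorem ext_lt {M T : ℕ} (hT : 0 < T) (c : Fin M → Fin T) (i : ℕ) : ext c i < T := by
  unfold ext
  split_ifs with h
  · exact (c ⟨i, h⟩).2
  · exact hT

theorem code_inj1 {t t' : ℕ → ℕ} {M : ℕ} {Q : Finset (ℕ × ℕ)} (h : Chain t t' M Q) :
    Set.InjOn Prod.fst (Q : Set (ℕ × ℕ)) := by
  intro p hp q hq he
  have h1 := h.2 p hp q hq
  have h2 := h.2 q hq p hp
  have h3 : p.2 = q.2 := by
    rcases lt_trichotomy p.2 q.2 with h3 | h3 | h3
    · have := h1.2 h3
      omega
    · exact h3
    · have := h2.2 h3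
      omega
  exact Prod.ext he h3

theorem code_inj2 {t t' : ℕ → ℕ} {M : ℕ} {Q : Finset (ℕ × ℕ)} (h : Chain t t' M Q) :
    Set.InjOn Prod.snd (Q : Set (ℕ × ℕ)) := by
  intro p hp q hq he
  have h1 := h.2 p hp q hq
  have h2 := h.2 q hq p hp
  have h3 : p.1 = q.1 := by
    rcases lt_trichotomy p.1 q.1 with h3 | h3 | h3
    · have := h1.1 h3
      omega
    · exact h3
    · have := h2.1 h3
      omega
  exact Prod.ext h3 he

theorem code_rank {t t' : ℕ → ℕ} {M : ℕ} {Q : Finset (ℕ × ℕ)} (h : Chain t t' M Q) {p : ℕ × ℕ}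
    (hp : p ∈ Q) : ((Q.image Prod.fst).filter (fun i => i < p.1)).card =
      ((Q.image Prod.snd).filter (fun j => j < p.2)).card := by
  rw [Finset.filter_image, Finset.filter_image, Finset.card_image_of_injOn,
    Finset.card_image_of_injOn]
  · congr 1
    ext q
    simp only [Finset.mem_filter]
    constructor
    · rintro ⟨hq, h1⟩
      exact ⟨hq, (h.2 q hq p hp).1 h1⟩
    · rintro ⟨hq, h1⟩
      exact ⟨hq, (h.2 q hq p hp).2 h1⟩
  · exact (code_inj2 h).mono (by
      intro x hx
      exact (Finset.mem_filter.1 hx).1)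
  · exact (code_inj1 h).mono (by
      intro x hx
      exact (Finset.mem_filter.1 hx).1)

theorem code_rank_inj {I : Finset ℕ} {a b : ℕ} (ha : a ∈ I) (hb : b ∈ I)
    (h : (I.filter (fun i => i < a)).card = (I.filter (fun i => i < b)).card) : a = b := by
  by_contra hne
  rcases lt_or_gt_of_ne hne with h1 | h1
  · have : (I.filter (fun i => i < a)).card < (I.filter (fun i => i < b)).card := by
      apply Finset.card_lt_card
      rw [Finset.ssubset_iff_of_subset]
      · exact ⟨a, by simp [ha, h1], by simp⟩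
      · intro x hx
        simp only [Finset.mem_filter] at hx ⊢
        exact ⟨hx.1, hx.2.trans h1⟩
    omega
  · have : (I.filter (fun i => i < b)).card < (I.filter (fun i => i < a)).card := by
      apply Finset.card_lt_card
      rw [Finset.ssubset_iff_of_subset]
      · exact ⟨b, by simp [hb, h1], by simp⟩
      · intro x hx
        simp only [Finset.mem_filter] at hx ⊢
        exact ⟨hx.1, hx.2.trans h1⟩
    omega

/-- two chains with the same coordinates agree -/
theorem code_unique {t t' t'' : ℕ → ℕ} {M : ℕ} {Q Q' : Finset (ℕ × ℕ)} (h : Chain t t' M Q)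
    (h' : Chain t t'' M Q') (h1 : Q.image Prod.fst = Q'.image Prod.fst)
    (h2 : Q.image Prod.snd = Q'.image Prod.snd) {j : ℕ} (hj : j ∈ Q.image Prod.snd) :
    t' j = t'' j := by
  have hj' := hj
  rw [h2] at hj'
  obtain ⟨p, hp, rfl⟩ := Finset.mem_image.1 hj
  obtain ⟨q, hq, hqj⟩ := Finset.mem_image.1 hj'
  have r1 := code_rank h hp
  have r2 := code_rank h' hq
  rw [← h1, ← h2, hqj] at r2
  have hp1 : p.1 ∈ Q.image Prod.fst := Finset.mem_image_of_mem _ hp
  have hq1 : q.1 ∈ Q.image Prod.fst := by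
    rw [h1]
    exact Finset.mem_image_of_mem _ hq
  have e : p.1 = q.1 := code_rank_inj hp1 hq1 (r1.trans r2.symm)
  rw [← (h.1 p hp).2.2, ← hqj, ← (h'.1 q hq).2.2, e]

theorem code_sub {t t' : ℕ → ℕ} {M : ℕ} {Q Q' : Finset (ℕ × ℕ)} (h : Chain t t' M Q)
    (hs : Q' ⊆ Q) : Chain t t' M Q' :=
  ⟨fun p hp => h.1 p (hs hp), fun p hp q hq => h.2 p (hs hp) q (hs hq)⟩

theorem code_swap {t t' : ℕ → ℕ} {M : ℕ} {Q : Finset (ℕ × ℕ)} (h : Chain t t' M Q) :
    Chain t' t M (Q.image Prod.swap) ∧ (Q.image Prod.swap).card = Q.card := by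
  refine ⟨⟨?_, ?_⟩, Finset.card_image_of_injective _ Prod.swap_injective⟩
  · intro p hp
    obtain ⟨q, hq, rfl⟩ := Finset.mem_image.1 hp
    exact ⟨(h.1 q hq).2.1, (h.1 q hq).1, (h.1 q hq).2.2.symm⟩
  · intro p hp p' hp'
    obtain ⟨q, hq, rfl⟩ := Finset.mem_image.1 hp
    obtain ⟨q', hq', rfl⟩ := Finset.mem_image.1 hp'
    exact (h.2 q hq q' hq').symm

theorem code_card_le {t t' : ℕ → ℕ} {M : ℕ} {Q : Finset (ℕ × ℕ)} (h : Chain t t' M Q) :
    Q.card ≤ M := by
  rw [← Finset.card_image_of_injOn (code_inj1 h)]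
  calc (Q.image Prod.fst).card ≤ (Finset.range M).card := by
        apply Finset.card_le_card
        intro i hi
        obtain ⟨p, hp, rfl⟩ := Finset.mem_image.1 hi
        exact Finset.mem_range.2 (h.1 p hp).1
    _ = M := Finset.card_range M

theorem code_diag (t : ℕ → ℕ) (M : ℕ) :
    Chain t t M ((Finset.range M).image fun i => (i, i)) ∧
      ((Finset.range M).image fun i => (i, i)).card = M := by
  refine ⟨⟨?_, ?_⟩, ?_⟩
  · intro p hp
    obtain ⟨i, hi, rfl⟩ := Finset.mem_image.1 hp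
    exact ⟨Finset.mem_range.1 hi, Finset.mem_range.1 hi, rfl⟩
  · intro p hp q hq
    obtain ⟨i, hi, rfl⟩ := Finset.mem_image.1 hp
    obtain ⟨j, hj, rfl⟩ := Finset.mem_image.1 hq
    exact Iff.rfl
  · rw [Finset.card_image_of_injective _ (fun a b h => (Prod.mk.inj h).1), Finset.card_range]

/-- the functions `c'` with a chain of size `k` with `c` -/
noncomputable def code_ball {M T : ℕ} (k : ℕ) (c : Fin M → Fin T) : Finset (Fin M → Fin T) := by
  classical
  exact Finset.univ.filter fun c' => ∃ Q, Chain (ext c) (ext c') M Q ∧ Q.card = k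

theorem code_mem_ball {M T k : ℕ} {c c' : Fin M → Fin T} :
    c' ∈ code_ball k c ↔ ∃ Q, Chain (ext c) (ext c') M Q ∧ Q.card = k := by
  classical
  unfold code_ball
  simp

theorem code_cell {M T k : ℕ} (c : Fin M → Fin T) (I J : Finset ℕ) (S : Finset (Fin M → Fin T))
    (hS : ∀ c' ∈ S, ∃ Q, Chain (ext c) (ext c') M Q ∧ Q.card = k ∧ Q.image Prod.fst = I ∧
      Q.image Prod.snd = J) : S.card ≤ T ^ (M - k) := by
  classical
  rcases S.eq_empty_or_nonempty with h0 | ⟨c₀, hc₀⟩
  · rw [h0, Finset.card_empty]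
    exact Nat.zero_le _
  obtain ⟨Q₀, hQ₀, hk₀, -, hJ₀⟩ := hS c₀ hc₀
  have hJcard : J.card = k := by
    rw [← hJ₀, Finset.card_image_of_injOn (code_inj2 hQ₀), hk₀]
  have hJM : ∀ j ∈ J, j < M := by
    intro j hj
    rw [← hJ₀] at hj
    obtain ⟨p, hp, rfl⟩ := Finset.mem_image.1 hj
    exact (hQ₀.1 p hp).2.1
  have hinj : Set.InjOn (fun (c' : Fin M → Fin T) => fun i : {i : Fin M // (i : ℕ) ∉ J} => c' i.1)
      (S : Set (Fin M → Fin T)) := by
    intro a ha b hb hab
    obtain ⟨Q, hQ, -, hI1, hJ1⟩ := hS a ha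
    obtain ⟨Q', hQ', -, hI2, hJ2⟩ := hS b hb
    funext i
    by_cases hi : (i : ℕ) ∈ J
    · have h := code_unique hQ hQ' (hI1.trans hI2.symm) (hJ1.trans hJ2.symm)
        (by rw [hJ1]; exact hi)
      unfold ext at h
      rw [dif_pos i.2, dif_pos i.2] at h
      exact Fin.ext h
    · exact congrFun hab ⟨i, hi⟩
  have h1 := Finset.card_le_card_of_injOn
    (t := (Finset.univ : Finset ({i : Fin M // (i : ℕ) ∉ J} → Fin T))) _
    (fun _ _ => Finset.mem_coe.2 (Finset.mem_univ _)) hinj
  refine h1.trans (le_of_eq ?_)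
  rw [Finset.card_univ, Fintype.card_fun, Fintype.card_fin]
  congr 1
  rw [Fintype.card_subtype_compl, Fintype.card_fin]
  congr 1
  rw [Fintype.card_subtype, ← hJcard]
  refine Finset.card_bij (fun i _ => (i : ℕ)) ?_ ?_ ?_
  · intro i hi
    exact (Finset.mem_filter.1 hi).2
  · intro i _ j _ h
    exact Fin.ext h
  · intro j hj
    exact ⟨⟨j, hJM j hj⟩, by simp [hj], rfl⟩

theorem code_ball_card {M T k : ℕ} (c : Fin M → Fin T) :
    (code_ball k c).card ≤ 4 ^ M * T ^ (M - k) := by
  classical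
  have hsub : code_ball k c ⊆ ((Finset.range M).powerset ×ˢ (Finset.range M).powerset).biUnion
      fun P => (Finset.univ.filter fun c' : Fin M → Fin T => ∃ Q, Chain (ext c) (ext c') M Q ∧
        Q.card = k ∧ Q.image Prod.fst = P.1 ∧ Q.image Prod.snd = P.2) := by
    intro c' hc'
    obtain ⟨Q, hQ, hk⟩ := code_mem_ball.1 hc'
    rw [Finset.mem_biUnion]
    refine ⟨(Q.image Prod.fst, Q.image Prod.snd), ?_, ?_⟩
    · rw [Finset.mem_product, Finset.mem_powerset, Finset.mem_powerset]
      constructor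
      · intro i hi
        obtain ⟨p, hp, rfl⟩ := Finset.mem_image.1 hi
        exact Finset.mem_range.2 (hQ.1 p hp).1
      · intro i hi
        obtain ⟨p, hp, rfl⟩ := Finset.mem_image.1 hi
        exact Finset.mem_range.2 (hQ.1 p hp).2.1
    · rw [Finset.mem_filter]
      exact ⟨Finset.mem_univ _, Q, hQ, hk, rfl, rfl⟩
  refine (Finset.card_le_card hsub).trans ?_
  refine Finset.card_biUnion_le.trans ?_
  have h1 : ∀ P ∈ (Finset.range M).powerset ×ˢ (Finset.range M).powerset,
      (Finset.univ.filter fun c' : Fin M → Fin T => ∃ Q, Chain (ext c) (ext c') M Q ∧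
        Q.card = k ∧ Q.image Prod.fst = P.1 ∧ Q.image Prod.snd = P.2).card ≤ T ^ (M - k) := by
    intro P _
    exact code_cell c P.1 P.2 _ fun c' hc' => (Finset.mem_filter.1 hc').2
  refine (Finset.sum_le_card_nsmul _ _ _ h1).trans (le_of_eq ?_)
  rw [Finset.card_product, Finset.card_powerset, Finset.card_range, smul_eq_mul, ← mul_pow]
  norm_num

theorem code_exists (D M k : ℕ) (hD : 0 < D) (hk : M ≤ D * k) :
    ∃ 𝒞 : Finset (Fin M → Fin (8 ^ D)), 2 ^ M ≤ 𝒞.card ∧ ∀ c ∈ 𝒞, ∀ c' ∈ 𝒞, c ≠ c' →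
      ∀ Q : Finset (ℕ × ℕ), Chain (ext c) (ext c') M Q → Q.card < k := by
  classical
  rcases Nat.lt_or_ge M k with hMk | hkM
  · refine ⟨Finset.univ, ?_, fun c _ c' _ _ Q hQ => (code_card_le hQ).trans_lt hMk⟩
    rw [Finset.card_univ, Fintype.card_fun, Fintype.card_fin, Fintype.card_fin, ← pow_mul]
    calc 2 ^ M ≤ 8 ^ M := Nat.pow_le_pow_left (by norm_num) M
      _ ≤ 8 ^ (D * M) := Nat.pow_le_pow_right (by norm_num) (Nat.le_mul_of_pos_left M hD)
  · set good : Finset (Finset (Fin M → Fin (8 ^ D))) := Finset.univ.filter fun 𝒞 =>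
      ∀ c ∈ 𝒞, ∀ c' ∈ 𝒞, c ≠ c' → c' ∉ code_ball k c with hgood
    have hne : good.Nonempty := ⟨∅, by simp [hgood]⟩
    obtain ⟨𝒞, h𝒞, hmax⟩ := Finset.exists_max_image good Finset.card hne
    have hC := (Finset.mem_filter.1 h𝒞).2
    have hsymm : ∀ c c' : Fin M → Fin (8 ^ D), c' ∈ code_ball k c → c ∈ code_ball k c' := by
      intro c c' h
      obtain ⟨Q, hQ, hQk⟩ := code_mem_ball.1 h
      exact code_mem_ball.2 ⟨_, (code_swap hQ).1, (code_swap hQ).2.trans hQk⟩
    have hself : ∀ c : Fin M → Fin (8 ^ D), c ∈ code_ball k c := by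
      intro c
      obtain ⟨Q, hQ, hQk⟩ := Finset.exists_subset_card_eq (s := (Finset.range M).image
        fun i => (i, i)) (n := k) (by rw [(code_diag (ext c) M).2]; exact hkM)
      exact code_mem_ball.2 ⟨Q, code_sub (code_diag (ext c) M).1 hQ, hQk⟩
    have hcov : (Finset.univ : Finset (Fin M → Fin (8 ^ D))) ⊆ 𝒞.biUnion fun c => code_ball k c := by
      intro x _
      rw [Finset.mem_biUnion]
      by_cases hx : x ∈ 𝒞
      · exact ⟨x, hx, hself x⟩
      · by_contra hcon
        push Not at hcon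
        have h1 : insert x 𝒞 ∈ good := by
          rw [hgood, Finset.mem_filter]
          refine ⟨Finset.mem_univ _, fun c hc c' hc' hne => ?_⟩
          rw [Finset.mem_insert] at hc hc'
          rcases hc with rfl | hc <;> rcases hc' with rfl | hc'
          · exact absurd rfl hne
          · exact fun h => hcon c' hc' (hsymm _ _ h)
          · exact hcon c hc
          · exact hC c hc c' hc' hne
        have h2 := hmax _ h1
        rw [Finset.card_insert_of_notMem hx] at h2
        omega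
    refine ⟨𝒞, ?_, fun c hc c' hc' hne Q hQ => ?_⟩
    · have h1 := (Finset.card_le_card hcov).trans Finset.card_biUnion_le
      rw [Finset.card_univ, Fintype.card_fun, Fintype.card_fin, Fintype.card_fin] at h1
      have h2 : ∑ c ∈ 𝒞, (code_ball k c).card ≤ 𝒞.card * (4 ^ M * (8 ^ D) ^ (M - k)) := by
        refine (Finset.sum_le_card_nsmul _ _ _ fun c _ => code_ball_card c).trans (le_of_eq ?_)
        rw [smul_eq_mul]
      have h3 : (8 ^ D) ^ M = (8 ^ D) ^ k * (8 ^ D) ^ (M - k) := by
        rw [← pow_add]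
        congr 1
        omega
      have h4 : (8 ^ D) ^ k * (8 ^ D) ^ (M - k) ≤ (𝒞.card * 4 ^ M) * (8 ^ D) ^ (M - k) := by
        rw [← h3]
        calc (8 ^ D) ^ M ≤ _ := h1.trans h2
          _ = _ := by ring
      have h5 : (8 ^ D) ^ k ≤ 𝒞.card * 4 ^ M :=
        Nat.le_of_mul_le_mul_right h4 (by positivity)
      have h6 : 8 ^ M ≤ (8 ^ D) ^ k := by
        rw [← pow_mul]
        exact Nat.pow_le_pow_right (by norm_num) hk
      have h7 : (8 : ℕ) ^ M = 2 ^ M * 4 ^ M := by
        rw [← mul_pow]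
        norm_num
      have h8 : 2 ^ M * 4 ^ M ≤ 𝒞.card * 4 ^ M := by
        rw [← h7]
        exact h6.trans h5
      exact Nat.le_of_mul_le_mul_right h8 (by positivity)
    · by_contra hcon
      push Not at hcon
      obtain ⟨Q', hQ', hQk⟩ := Finset.exists_subset_card_eq hcon
      exact hC c hc c' hc' hne (code_mem_ball.2 ⟨Q', code_sub hQ hQ', hQk⟩)

end MP8D
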