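import Pool.Agent.Lib.MP_8c24b6_lc.RnaDefs

/-!
MP_8c24b6_lc, deterministic lower bound: definitions.

Scales: `B` a multiple of `4`, `T` types `a = 0, ..., T-1`, `f_a = B^(2a)`, `r_a = B^(2a+1)`, piece length
`L = B^(2T)`.  The word of type `a` is the periodic word
`((A^f C^f)^(r/f) (U^f C^f)^(r/f)) ...`, that is: the blocks of length `f` with odd number are `C`, the others
are `A` in the phases of length `2r` with even number and `U` in the other phases.
-/

namespace MP8D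

open MP8C Finset

/-- letter number `x` of the periodic word of type `a` -/
def lt (B a x : ℕ) : Base :=
  if x / B ^ (2 * a) % 2 = 1 then Base.C
  else if x / (2 * B ^ (2 * a + 1)) % 2 = 0 then Base.A else Base.U

/-- the word of the type sequence `t`: piece number `i` (positions `[i L, (i+1) L)`) has type `t i` -/
def word (B T : ℕ) (t : ℕ → ℕ) (x : ℕ) : Base := lt B (t (x / B ^ (2 * T))) x

/-- number of positions in `[x, y)` at which `w` has the letter `β` -/
def cnt (β : Base) (w : ℕ → Base) (x y : ℕ) : ℕ := ((Ico x y).filter (fun i => w i = β)).card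

/-- `4` times the weight `g_β(x)`: `4 #A`, `4 #U`, `2 #C` for the prefix of length `x` of the word of type `a` -/
def gw (B a : ℕ) (β : Base) (x : ℕ) : ℕ :=
  match β with
  | Base.A => 4 * cnt Base.A (lt B a) 0 x
  | Base.U => 4 * cnt Base.U (lt B a) 0 x
  | Base.C => 2 * cnt Base.C (lt B a) 0 x
  | Base.G => 0

/-- `4` times the potential at the lattice point `(x, y)` -/
def pot (B T : ℕ) (t t' : ℕ → ℕ) (x y : ℕ) : ℕ :=
  if t (x / B ^ (2 * T)) < t' (y / B ^ (2 * T)) then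
    gw B (t (x / B ^ (2 * T))) (word B T t' y) x + gw B (t' (y / B ^ (2 * T))) Base.C y
  else if t' (y / B ^ (2 * T)) < t (x / B ^ (2 * T)) then
    gw B (t' (y / B ^ (2 * T))) (word B T t x) y + gw B (t (x / B ^ (2 * T))) Base.C x
  else x + y

/-- the error charged to the position `x`: piece boundaries, block boundaries, phase boundaries -/
def er (B T : ℕ) (t : ℕ → ℕ) (x : ℕ) : ℕ :=
  (if B ^ (2 * T) ∣ x then 16 * B ^ (2 * T - 1) else 0) +
  (if B ^ (2 * t (x / B ^ (2 * T))) ∣ x then 8 * (B ^ (2 * t (x / B ^ (2 * T))) / B) else 0) +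
  (if 2 * B ^ (2 * t (x / B ^ (2 * T)) + 1) ∣ x then 8 * B ^ (2 * t (x / B ^ (2 * T))) else 0)

/-- the sum of the errors of the positions `1, ..., x` -/
def Er (B T : ℕ) (t : ℕ → ℕ) (x : ℕ) : ℕ := ∑ i ∈ Ico 1 (x + 1), er B T t i

/-- `P` is an order preserving set of pairs of equal letters of `w` on `[0,X)` and `z` on `[0,Y)` -/
def Align (w z : ℕ → Base) (X Y : ℕ) (P : Finset (ℕ × ℕ)) : Prop :=
  (∀ p ∈ P, p.1 < X ∧ p.2 < Y ∧ w p.1 = z p.2) ∧ ∀ p ∈ P, ∀ q ∈ P, (p.1 < q.1 ↔ p.2 < q.2)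

/-- `S` is a set of disjoint `A`-`U` pairs in `[x, X)` -/
def SelfPairs (w : ℕ → Base) (x X : ℕ) (S : Finset (ℕ × ℕ)) : Prop :=
  (∀ p ∈ S, x ≤ p.1 ∧ p.1 < p.2 ∧ p.2 < X ∧
    ((w p.1 = Base.A ∧ w p.2 = Base.U) ∨ (w p.1 = Base.U ∧ w p.2 = Base.A))) ∧
  (∀ p ∈ S, ∀ q ∈ S, p ≠ q → p.1 ≠ q.1 ∧ p.1 ≠ q.2 ∧ p.2 ≠ q.1 ∧ p.2 ≠ q.2)

/-- common subsequences of `t` and `t'` on `[0,M)`, as sets of pairs of positions -/
def Chain (t t' : ℕ → ℕ) (M : ℕ) (Q : Finset (ℕ × ℕ)) : Prop :=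
  (∀ p ∈ Q, p.1 < M ∧ p.2 < M ∧ t p.1 = t' p.2) ∧ ∀ p ∈ Q, ∀ q ∈ Q, (p.1 < q.1 ↔ p.2 < q.2)

/-- the complementary letter -/
def co : Base → Base
  | .A => .U
  | .U => .A
  | .C => .G
  | .G => .C

/-- first part of the hard string: `N` letters -/
def partA (B T : ℕ) (t : ℕ → ℕ) (N : ℕ) : List Base := (List.range N).map (word B T t)

/-- second part of the hard string: the reversed complement of `N` letters, and `m` letters `A` -/
def partB (B T : ℕ) (t : ℕ → ℕ) (N m : ℕ) : List Base :=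
  ((List.range N).map (fun y => co (word B T t y))).reverse ++ List.replicate m Base.A

end MP8D
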