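import Pool.Agent.Lib.MP_8c24b6_lc_det.PotB

/-!
Module 4 (60 min). The diagonal step.

Let `L = B^(2T)`, `a = t (x/L)`, `b = t' (y/L)`, `α = w x = z y` (`w = word t`, `z = word t'`).
* If `L ∣ x+1` or `L ∣ y+1`: `pot(x,y) ≤ x + y + 6 B^(2T-1)`, `pot(x+1,y+1) ≥ x + y + 2 - 6 B^(2T-1)`
  (`pot_bound`), and the error `16 B^(2T-1) ≥ 12 B^(2T-1) + 2` is in `er (x+1)` or `er (y+1)`.
* Otherwise `(x+1)/L = x/L`, `(y+1)/L = y/L`: same types.
  `a = b`: `pot` grows by `2`, and the last term is `2`.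
  `a < b`: `w = lt a`, `z = lt b` at all positions involved.  `gw a α (x+1) + gw b C (y+1) = gw a α x + gw b C y + 4`
  (for `α = A, U` the first grows by `4`, for `α = C` both grow by `2`: `gw_succ`, `gwC_succ`).  If
  `B^(2b) ∤ y+1`, the letter `z (y+1)` is again `α` (`lt_eq_of_div_eq`).  If `B^(2b) ∣ y+1`: replacing `α` by
  `z (y+1)` in `gw a _ (x+1)` costs at most `8 B^(2a+1)` (`gw_bound` twice), and `a < b` gives
  `B^(2a+1) ≤ B^(2b-1) = B^(2b)/B`, so it is at most the error `8 (B^(2b)/B)` in `er t' (y+1)`.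
  `a > b`: the same with the roles exchanged (`pot_symm`).
-/

namespace MP8D

open MP8C Finset

theorem Diag_div_succ {L x : ℕ} (h : ¬ L ∣ x + 1) : (x + 1) / L = x / L := by
  rw [Nat.succ_div, if_neg h, Nat.add_zero]

/-- `B^(2a+1) ≤ B^(2b)/B` for `a < b` -/
theorem Diag_pow_le {B a b : ℕ} (hB : 2 ≤ B) (hab : a < b) : B ^ (2 * a + 1) ≤ B ^ (2 * b) / B := by
  rw [Nat.le_div_iff_mul_le (by omega), ← pow_succ]
  exact Nat.pow_le_pow_right (by omega) (by omega)

/-- the case `a < b` inside the pieces -/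
private theorem diag_aux {B T : ℕ} (hB : 2 ≤ B) (hB2 : 2 ∣ B) {t t' : ℕ → ℕ} {x y : ℕ}
    (h : word B T t x = word B T t' y) (hx : ¬ B ^ (2 * T) ∣ x + 1) (hy : ¬ B ^ (2 * T) ∣ y + 1)
    (hab : t (x / B ^ (2 * T)) < t' (y / B ^ (2 * T))) :
    pot B T t t' x y + 4 ≤ pot B T t t' (x + 1) (y + 1) + er B T t' (y + 1) := by
  have ex := Diag_div_succ hx
  have ey := Diag_div_succ hy
  have hab' : t ((x + 1) / B ^ (2 * T)) < t' ((y + 1) / B ^ (2 * T)) := by rw [ex, ey]; exact hab
  have hp1 : pot B T t t' x y = gw B (t (x / B ^ (2 * T))) (word B T t' y) x +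
      gw B (t' (y / B ^ (2 * T))) Base.C y := by unfold pot; rw [if_pos hab]
  have hp2 : pot B T t t' (x + 1) (y + 1) = gw B (t (x / B ^ (2 * T))) (word B T t' (y + 1)) (x + 1) +
      gw B (t' (y / B ^ (2 * T))) Base.C (y + 1) := by unfold pot; rw [if_pos hab', ex, ey]
  rw [hp1, hp2]
  set a := t (x / B ^ (2 * T)) with ha
  set b := t' (y / B ^ (2 * T)) with hb
  have hwx : lt B a x = word B T t x := rfl
  have hwy : lt B b y = word B T t' y := rfl
  have hwy1 : word B T t' (y + 1) = lt B b (y + 1) := by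
    unfold word
    rw [ey]
  have hs1 := gw_succ B a x (word B T t' y) (by rw [hwx, h])
  have hs2 := gwC_succ B b y
  rw [hwy] at hs2
  have hs : gw B a (word B T t' y) (x + 1) + gw B b Base.C (y + 1) =
      gw B a (word B T t' y) x + gw B b Base.C y + 4 := by
    split_ifs at hs1 hs2 <;> omega
  by_cases hd : B ^ (2 * b) ∣ y + 1
  · have he : 8 * (B ^ (2 * b) / B) ≤ er B T t' (y + 1) := by
      unfold er
      rw [ey, ← hb, if_pos hd]
      omega
    have h3 := Diag_pow_le hB hab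
    have h4 := gw_bound hB hB2 a (x + 1) (PotB_word_ne_G B T t' y)
    have h5 := gw_bound hB hB2 a (x + 1) (PotB_word_ne_G B T t' (y + 1))
    omega
  · have h6 : word B T t' (y + 1) = word B T t' y := by
      rw [hwy1, ← hwy]
      exact lt_eq_of_div_eq (Diag_div_succ hd)
    rw [h6]
    omega

theorem diag {B T : ℕ} (hB : 2 ≤ B) (hB2 : 2 ∣ B) {t t' : ℕ → ℕ} (ht : ∀ i, t i < T)
    (ht' : ∀ i, t' i < T) {x y : ℕ} (h : word B T t x = word B T t' y) :
    pot B T t t' x y + 4 + Er B T t x + Er B T t' y ≤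
      pot B T t t' (x + 1) (y + 1) + Er B T t (x + 1) + Er B T t' (y + 1) +
        (if t (x / B ^ (2 * T)) = t' (y / B ^ (2 * T)) then 2 else 0) := by
  rw [Er_succ, Er_succ]
  have hp := (pot_bound hB hB2 ht ht' x y).2
  have hp' := (pot_bound hB hB2 ht ht' (x + 1) (y + 1)).1
  have hB' : 1 ≤ B ^ (2 * T - 1) := Nat.one_le_pow _ _ (by omega)
  by_cases hx : B ^ (2 * T) ∣ x + 1
  · have he : 16 * B ^ (2 * T - 1) ≤ er B T t (x + 1) := by
      unfold er
      rw [if_pos hx]
      omega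
    omega
  by_cases hy : B ^ (2 * T) ∣ y + 1
  · have he : 16 * B ^ (2 * T - 1) ≤ er B T t' (y + 1) := by
      unfold er
      rw [if_pos hy]
      omega
    omega
  rcases lt_trichotomy (t (x / B ^ (2 * T))) (t' (y / B ^ (2 * T))) with hab | hab | hab
  · have := diag_aux hB hB2 h hx hy hab
    omega
  · have ex := Diag_div_succ hx
    have ey := Diag_div_succ hy
    have hp1 : pot B T t t' x y = x + y := by
      unfold pot
      rw [if_neg (by omega), if_neg (by omega)]
    have hp2 : pot B T t t' (x + 1) (y + 1) = (x + 1) + (y + 1) := by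
      unfold pot
      rw [ex, ey, if_neg (by omega), if_neg (by omega)]
    rw [if_pos hab]
    omega
  · have := diag_aux hB hB2 h.symm hy hx hab
    rw [pot_symm B T t t' x y, pot_symm B T t t' (x + 1) (y + 1)]
    omega

end MP8D
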