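import Pool.Agent.Lib.MP_8c24b6_lc_det.Defs

/-!
Module 7 (45 min). The sum of the errors: at most `28 L/B` per piece, `L = B^(2T)`, `M + 1` pieces.

`Er t (M L) ≤ Σ_(x < (M+1) L) er t x`, split into the pieces `i ≤ M`.  In the piece `i` (type `a = t i < T`): one
multiple of `L` (its first position): `16 B^(2T-1)`; exactly `L / B^(2a)` multiples of `B^(2a)`, each
`8 (B^(2a)/B) ≤ 8 B^(2a) / B`: at most `8 L / B = 8 B^(2T-1)`; and the multiples of `2 B^(2a+1)`: `L` is a multiple of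
`2 B^(2a+1)` if ... (`B` even, `2T ≥ 2a+2`), so exactly `L / (2 B^(2a+1))` of them, each `8 B^(2a)`: `4 B^(2T-1)`.
Sum `28 B^(2T-1)`.
-/

namespace MP8D

open MP8C Finset

/-- the number of multiples of `d` in `c` periods -/
theorem ErSum_card {d m c : ℕ} (hd : 0 < d) :
    ((Ico (d * m) (d * (m + c))).filter fun x => d ∣ x).card ≤ c := by
  have h : ((Ico (d * m) (d * (m + c))).filter fun x => d ∣ x) ⊆ (Ico m (m + c)).image (d * ·) := by
    intro x hx
    rw [mem_filter, mem_Ico] at hx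
    obtain ⟨⟨h1, h2⟩, k, rfl⟩ := hx
    rw [mem_image]
    exact ⟨k, mem_Ico.2 ⟨Nat.le_of_mul_le_mul_left h1 hd, Nat.lt_of_mul_lt_mul_left h2⟩, rfl⟩
  refine (card_le_card h).trans (card_image_le.trans ?_)
  rw [Nat.card_Ico]
  omega

/-- the sum of a constant over the multiples of `d` in `c` periods -/
theorem ErSum_sum {d m c v : ℕ} (hd : 0 < d) :
    ∑ x ∈ Ico (d * m) (d * (m + c)), (if d ∣ x then v else 0) ≤ c * v := by
  rw [← sum_filter, sum_const, smul_eq_mul]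
  exact Nat.mul_le_mul_right v (ErSum_card hd)

/-- the errors of one piece -/
theorem ErSum_piece {B T : ℕ} (hB : 2 ≤ B) (hB2 : 2 ∣ B) {t : ℕ → ℕ} (ht : ∀ i, t i < T) (q : ℕ) :
    ∑ x ∈ Ico (B ^ (2 * T) * q) (B ^ (2 * T) * (q + 1)), er B T t x ≤ 28 * B ^ (2 * T - 1) := by
  have hL : 0 < B ^ (2 * T) := by positivity
  have hT := ht q
  obtain ⟨b, hb⟩ := hB2
  have e0 : ∀ x ∈ Ico (B ^ (2 * T) * q) (B ^ (2 * T) * (q + 1)), er B T t x =
      (if B ^ (2 * T) ∣ x then 16 * B ^ (2 * T - 1) else 0) +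
      (if B ^ (2 * t q) ∣ x then 8 * (B ^ (2 * t q) / B) else 0) +
      (if 2 * B ^ (2 * t q + 1) ∣ x then 8 * B ^ (2 * t q) else 0) := by
    intro x hx
    rw [mem_Ico] at hx
    have h1 : x / B ^ (2 * T) = q :=
      Nat.div_eq_of_lt_le (by rw [mul_comm]; exact hx.1) (by rw [mul_comm]; exact hx.2)
    unfold er
    rw [h1]
  rw [sum_congr rfl e0, sum_add_distrib, sum_add_distrib]
  have s1 := ErSum_sum (d := B ^ (2 * T)) (m := q) (c := 1) (v := 16 * B ^ (2 * T - 1)) hL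
  have eL : B ^ (2 * T) = B ^ (2 * t q) * B ^ (2 * (T - t q)) := by
    rw [← pow_add]; congr 1; omega
  have s2 := ErSum_sum (d := B ^ (2 * t q)) (m := B ^ (2 * (T - t q)) * q) (c := B ^ (2 * (T - t q)))
    (v := 8 * (B ^ (2 * t q) / B)) (by positivity)
  have e1 : B ^ (2 * t q) * (B ^ (2 * (T - t q)) * q) = B ^ (2 * T) * q := by rw [eL]; ring
  have e2 : B ^ (2 * t q) * (B ^ (2 * (T - t q)) * q + B ^ (2 * (T - t q))) = B ^ (2 * T) * (q + 1) := by
    rw [eL]; ring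
  rw [e1, e2] at s2
  have eL' : B ^ (2 * T) = 2 * B ^ (2 * t q + 1) * (b * B ^ (2 * (T - t q) - 2)) := by
    have h1 : 2 * T = (2 * t q + 1) + ((2 * (T - t q) - 2) + 1) := by omega
    rw [h1, pow_add, pow_succ B (2 * (T - t q) - 2)]
    have h2 : B ^ (2 * (T - t q) - 2) * B = B ^ (2 * (T - t q) - 2) * (2 * b) := by rw [← hb]
    rw [h2]
    ring
  have s3 := ErSum_sum (d := 2 * B ^ (2 * t q + 1)) (m := (b * B ^ (2 * (T - t q) - 2)) * q)
    (c := b * B ^ (2 * (T - t q) - 2)) (v := 8 * B ^ (2 * t q)) (by positivity)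
  have e3 : 2 * B ^ (2 * t q + 1) * ((b * B ^ (2 * (T - t q) - 2)) * q) = B ^ (2 * T) * q := by
    rw [eL']; ring
  have e4 : 2 * B ^ (2 * t q + 1) * ((b * B ^ (2 * (T - t q) - 2)) * q + b * B ^ (2 * (T - t q) - 2)) =
      B ^ (2 * T) * (q + 1) := by
    rw [eL']; ring
  rw [e3, e4] at s3
  have f2 : B ^ (2 * (T - t q)) * (8 * (B ^ (2 * t q) / B)) ≤ 8 * B ^ (2 * T - 1) := by
    have h1 : B ^ (2 * t q) / B * B ≤ B ^ (2 * t q) := Nat.div_mul_le_self _ _
    have h2 : B ^ (2 * T - 1) * B = B ^ (2 * T) := by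
      rw [← pow_succ]; congr 1; omega
    refine Nat.le_of_mul_le_mul_right (c := B) ?_ (by omega)
    calc B ^ (2 * (T - t q)) * (8 * (B ^ (2 * t q) / B)) * B
        = 8 * (B ^ (2 * (T - t q)) * (B ^ (2 * t q) / B * B)) := by ring
      _ ≤ 8 * (B ^ (2 * (T - t q)) * B ^ (2 * t q)) := by gcongr
      _ = 8 * B ^ (2 * T - 1) * B := by rw [mul_assoc, h2, eL]; ring
  have f3 : b * B ^ (2 * (T - t q) - 2) * (8 * B ^ (2 * t q)) = 4 * B ^ (2 * T - 1) := by
    have h1 : 2 * T - 1 = 2 * t q + (2 * (T - t q) - 2) + 1 := by omega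
    rw [h1, pow_succ, pow_add]
    have h2 : B ^ (2 * t q) * B ^ (2 * (T - t q) - 2) * B =
      B ^ (2 * t q) * B ^ (2 * (T - t q) - 2) * (2 * b) := by rw [← hb]
    rw [h2]
    ring
  omega

theorem Er_le {B T : ℕ} (hB : 2 ≤ B) (hB2 : 2 ∣ B) {t : ℕ → ℕ} (ht : ∀ i, t i < T) (M : ℕ) :
    Er B T t (M * B ^ (2 * T)) ≤ 28 * (M + 1) * B ^ (2 * T - 1) := by
  have hL : 0 < B ^ (2 * T) := by positivity
  have key : ∀ q, ∑ x ∈ range (B ^ (2 * T) * q), er B T t x ≤ 28 * q * B ^ (2 * T - 1) := by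
    intro q
    induction q with
    | zero => simp
    | succ q ih =>
      rw [range_eq_Ico] at ih ⊢
      rw [← sum_Ico_consecutive _ (Nat.zero_le (B ^ (2 * T) * q))
        (Nat.mul_le_mul_left (B ^ (2 * T)) (Nat.le_succ q))]
      have h1 := ErSum_piece hB hB2 ht q
      have h2 : 28 * (q + 1) * B ^ (2 * T - 1) = 28 * q * B ^ (2 * T - 1) + 28 * B ^ (2 * T - 1) := by ring
      simp only [Nat.succ_eq_add_one]
      omega
  refine le_trans ?_ (key (M + 1))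
  unfold Er
  refine sum_le_sum_of_subset fun x hx => ?_
  rw [mem_Ico] at hx
  rw [mem_range]
  have h3 : B ^ (2 * T) * (M + 1) = M * B ^ (2 * T) + B ^ (2 * T) := by ring
  omega

end MP8D
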