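import Pool.Agent.Lib.MP_8c24b6_lc_det.StreamDefs

/-!
Module 12 (45 min). The crossing argument.

For a deterministic algorithm the transcript of `(u i, v i)` is the list of the memory states in the middle and at the
end of each of the `p` passes over `u i ++ v i`.  If the transcripts of `i` and `j` are equal then
`run p (u i ++ v j) = run p (u j ++ v j)`: by induction on the number of passes, the state after `q` passes over
`u i ++ v j` is the one of `i` (equal to that of `j`): the middle state only depends on the previous state and `u i`,
the end state only on the middle state (the same for `i` and `j`) and `v j`.  All `u i` have the same length and all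
`v i` have the same length (needed for the times).
`card_le`: if for `i ≠ j` in `A` the numbers `run p (u i ++ v j)` and `run p (u j ++ v j)` differ then the map
transcript is injective on `A`, so `A.card ≤ (2^s · 2^s)^p = 2^(2 s p)`.
-/

namespace MP8D

open MP8C

private theorem stream_read_append {s : ℕ} (alg : PassAlg s) (x y : List Base) :
    ∀ (j : ℕ) (q : Fin (2 ^ s)),
      alg.read j q (x ++ y) = alg.read (j + x.length) (alg.read j q x) y := by
  induction x with
  | nil => intro j q; simp [PassAlg.read]
  | cons b x ih =>
    intro j q
    rw [List.cons_append, PassAlg.read, ih, List.length_cons, PassAlg.read]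
    congr 1
    ring

private theorem stream_state {s : ℕ} (alg : PassAlg s) (p n1 n2 : ℕ) (u u' v v' : List Base)
    (hu : u.length = n1) (hu' : u'.length = n1) (_hv : v.length = n2) (hv' : v'.length = n2)
    (h : ∀ q, q < p → alg.read (q * (n1 + n2)) (alg.state (u ++ v) q) u =
      alg.read (q * (n1 + n2)) (alg.state (u' ++ v') q) u')
    (h' : ∀ q, q < p → alg.state (u ++ v) (q + 1) = alg.state (u' ++ v') (q + 1)) :
    ∀ q, q ≤ p → alg.state (u ++ v') q = alg.state (u' ++ v') q := by
  intro q
  induction q with
  | zero => intro _; rfl
  | succ q ih =>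
    intro hq
    have hqp : q < p := hq
    have h1 := ih hqp.le
    have h2 : alg.state (u ++ v) q = alg.state (u' ++ v') q := by
      cases q with
      | zero => rfl
      | succ q => exact h' q (by omega)
    have h3 := h q hqp
    rw [PassAlg.state, PassAlg.state, List.length_append, List.length_append, hu, hu', hv',
      stream_read_append, stream_read_append, hu, hu', h1, ← h2, h3, h2]

theorem card_le {ι : Type*} [DecidableEq ι] {s : ℕ} (alg : PassAlg s) (p n1 n2 : ℕ)
    (u v : ι → List Base) (hu : ∀ i, (u i).length = n1) (hv : ∀ i, (v i).length = n2) (A : Finset ι)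
    (h : ∀ i ∈ A, ∀ j ∈ A, i ≠ j → alg.run p (u i ++ v j) ≠ alg.run p (u j ++ v j)) :
    A.card ≤ 2 ^ (2 * s * p) := by
  classical
  let tr : ι → (Fin p → Fin (2 ^ s) × Fin (2 ^ s)) := fun i q =>
    (alg.read (q.val * (n1 + n2)) (alg.state (u i ++ v i) q.val) (u i),
      alg.state (u i ++ v i) (q.val + 1))
  have hinj : Set.InjOn tr (A : Set ι) := by
    intro i hi j hj hij
    by_contra hne
    apply h i hi j hj hne
    unfold PassAlg.run
    rw [stream_state alg p n1 n2 (u i) (u j) (v i) (v j) (hu i) (hu j) (hv i) (hv j) ?_ ?_ p le_rfl]
    · intro q hq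
      exact congrArg Prod.fst (congrFun hij ⟨q, hq⟩)
    · intro q hq
      exact congrArg Prod.snd (congrFun hij ⟨q, hq⟩)
  calc A.card = (A.image tr).card := (Finset.card_image_of_injOn hinj).symm
    _ ≤ (Finset.univ : Finset (Fin p → Fin (2 ^ s) × Fin (2 ^ s))).card :=
        Finset.card_le_univ _
    _ = 2 ^ (2 * s * p) := by
        rw [Finset.card_univ, Fintype.card_fun, Fintype.card_prod, Fintype.card_fin,
          Fintype.card_fin, ← pow_add, ← pow_mul]
        congr 1
        ring

end MP8D
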