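import Pool.Agent.Lib.MP_8c24b6_lc_det.Fold
import Pool.Agent.Lib.MP_8c24b6_lc_det.Perfect
import Pool.Agent.Lib.MP_8c24b6_lc_det.Code
import Pool.Agent.Lib.MP_8c24b6_lc_det.Stream

/-!
The family of hard strings (assembly).
-/

namespace MP8D

open MP8C Finset

/-- the hard family: for every `η > 0` there are `L > 0`, `M0` such that for all `M ≥ M0` and `m < 2 L` there are at
least `2^M` indices `i` and lists `u i`, `v i` of lengths `M L` and `M L + m` with `opt (u i ++ v i) ≥ M L` and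
`opt (u i ++ v j) < (1/2 + η) M L` for `i ≠ j` -/
theorem hard_family (η : ℝ) (hη : 0 < η) : ∃ L M0 : ℕ, 0 < L ∧ ∀ M m : ℕ, M0 ≤ M → m < 2 * L →
    ∃ (ι : Type) (_ : DecidableEq ι) (𝒞 : Finset ι) (u v : ι → List Base), 2 ^ M ≤ 𝒞.card ∧
      (∀ i, (u i).length = M * L) ∧ (∀ i, (v i).length = M * L + m) ∧
      (∀ i, M * L ≤ opt (u i ++ v i)) ∧
      ∀ i ∈ 𝒞, ∀ j ∈ 𝒞, i ≠ j → (opt (u i ++ v j) : ℝ) < (1 / 2 + η) * (M * L : ℕ) := by
  obtain ⟨D, hD⟩ := exists_nat_gt (4 / η)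
  obtain ⟨b, hb⟩ := exists_nat_gt (124 / η)
  have hD0 : 0 < D := by
    have : (0 : ℝ) < D := lt_trans (by positivity) hD
    exact_mod_cast this
  have hb0 : 0 < b := by
    have : (0 : ℝ) < b := lt_trans (by positivity) hb
    exact_mod_cast this
  obtain ⟨M1, hM1⟩ := exists_nat_gt (6 / η)
  set B := 2 * b with hBdef
  set T := 8 ^ D with hTdef
  have hB : 2 ≤ B := by omega
  have hB2 : 2 ∣ B := ⟨b, rfl⟩
  have hT : 0 < T := by positivity
  have hL : 0 < B ^ (2 * T) := by positivity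
  refine ⟨B ^ (2 * T), max M1 1, hL, ?_⟩
  intro M m hM hm
  have hM1' : M1 ≤ M := le_trans (le_max_left _ _) hM
  have hM0 : 1 ≤ M := le_trans (le_max_right _ _) hM
  obtain ⟨𝒞, h1, h2⟩ := code_exists D M (M / D + 1) hD0 (by
    have := Nat.lt_mul_div_succ M hD0
    rw [Nat.add_one]
    exact this.le)
  refine ⟨Fin M → Fin T, inferInstance, 𝒞, fun c => partA B T (ext c) (M * B ^ (2 * T)),
    fun c => partB B T (ext c) (M * B ^ (2 * T)) m, h1, ?_, ?_, ?_, ?_⟩
  · intro c; simp [partA]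
  · intro c; simp [partB]
  · intro c; exact opt_perfect B T (ext c) _ m
  · intro c hc c' hc' hne
    have h3 := opt_hard hB hB2 (ext_lt hT c) (ext_lt hT c') M m (M / D)
      (fun Q hQ => Nat.lt_succ_iff.1 (h2 c hc c' hc' hne Q hQ))
    have hpow : B ^ (2 * T) = B * B ^ (2 * T - 1) := by
      rw [← pow_succ']
      congr 1
      omega
    set L := B ^ (2 * T) with hLdef
    set L' := B ^ (2 * T - 1) with hL'def
    set o := opt (partA B T (ext c) (M * L) ++ partB B T (ext c') (M * L) m) with ho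
    have hLR : (L : ℝ) = B * L' := by rw [hpow]; push_cast; ring
    have h3R : 4 * (o : ℝ) ≤ 2 * (M * L) + 62 * (M + 1) * L' + 4 * (L * ((M / D : ℕ) : ℝ)) + 4 * m := by
      exact_mod_cast h3
    have hbR : (124 : ℝ) < η * b := by
      rw [div_lt_iff₀ hη] at hb
      linarith
    have hDR : (4 : ℝ) < η * D := by
      rw [div_lt_iff₀ hη] at hD
      linarith
    have hMR : (6 : ℝ) < η * M := by
      rw [div_lt_iff₀ hη] at hM1
      have : (M1 : ℝ) ≤ M := by exact_mod_cast hM1'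
      nlinarith
    have hdiv : ((M / D : ℕ) : ℝ) * D ≤ M := by
      exact_mod_cast Nat.div_mul_le_self M D
    have hLp : (0 : ℝ) < L := by exact_mod_cast hL
    have hL'p : (0 : ℝ) < L' := by
      have : 0 < B ^ (2 * T - 1) := by positivity
      exact_mod_cast this
    have hMp : (1 : ℝ) ≤ M := by exact_mod_cast hM0
    have hmR : (m : ℝ) < 2 * L := by exact_mod_cast hm
    have hBR : (B : ℝ) = 2 * b := by rw [hBdef]; push_cast; ring
    -- 62 (M+1) L' ≤ 124 M L' ≤ (η / 2) M L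
    have hmd : ((M / D : ℕ) : ℝ) ≤ η / 4 * M := by
      have hDp : (0 : ℝ) < D := by exact_mod_cast hD0
      have h5 : 4 * ((M / D : ℕ) : ℝ) ≤ η * D * ((M / D : ℕ) : ℝ) :=
        mul_le_mul_of_nonneg_right hDR.le (by positivity)
      nlinarith
    have h6 : 62 * ((M : ℝ) + 1) * L' ≤ η / 2 * (M * L) := by
      have h7 : (124 : ℝ) * (M * L') ≤ η * b * (M * L') :=
        mul_le_mul_of_nonneg_right hbR.le (by positivity)
      rw [hLR, hBR]
      nlinarith
    have h8 : (L : ℝ) * ((M / D : ℕ) : ℝ) ≤ L * (η / 4 * M) :=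
      mul_le_mul_of_nonneg_left hmd hLp.le
    have h9 : 6 * (L : ℝ) < η * M * L := mul_lt_mul_of_pos_right hMR hLp
    push_cast
    nlinarith

end MP8D
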