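import Pool.Agent.Lib.MP_8c24b6_lc_det.FinalP

/-!
The final theorem (assembly).
-/

namespace MP8D

open MP8C Finset MeasureTheory

/-- averaging: if the events `E i`, `i ∈ 𝒞`, have probability at least `q` and every outcome lies in at most `K` of them
then `q |𝒞| ≤ K` -/
theorem average {ι Ω : Type} [MeasurableSpace Ω] (μ : Measure Ω) [IsProbabilityMeasure μ] (𝒞 : Finset ι)
    (E : ι → Set Ω) (hE : ∀ i ∈ 𝒞, MeasurableSet (E i)) (q : ℝ) (hq : ∀ i ∈ 𝒞, ENNReal.ofReal q ≤ μ (E i))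
    (K : ℕ) (hK : ∀ ω, ∀ A : Finset ι, A ⊆ 𝒞 → (∀ i ∈ A, ω ∈ E i) → A.card ≤ K) :
    q * 𝒞.card ≤ K := by
  classical
  have h1 : (𝒞.card : ENNReal) * ENNReal.ofReal q ≤ K := by
    calc (𝒞.card : ENNReal) * ENNReal.ofReal q = ∑ _i ∈ 𝒞, ENNReal.ofReal q := by
          rw [Finset.sum_const, nsmul_eq_mul]
      _ ≤ ∑ i ∈ 𝒞, μ (E i) := Finset.sum_le_sum hq
      _ = ∑ i ∈ 𝒞, ∫⁻ ω, (E i).indicator 1 ω ∂μ := by
          refine Finset.sum_congr rfl fun i hi => ?_
          rw [lintegral_indicator_one (hE i hi)]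
      _ = ∫⁻ ω, ∑ i ∈ 𝒞, (E i).indicator 1 ω ∂μ := by
          rw [lintegral_finsetSum']
          intro i hi
          exact (measurable_one.indicator (hE i hi)).aemeasurable
      _ ≤ ∫⁻ _ω, (K : ENNReal) ∂μ := by
          refine lintegral_mono fun ω => ?_
          have h2 : ∑ i ∈ 𝒞, (E i).indicator (1 : Ω → ENNReal) ω = ((𝒞.filter (fun i => ω ∈ E i)).card : ENNReal) := by
            rw [Finset.card_filter]
            push_cast
            refine Finset.sum_congr rfl fun i _ => ?_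
            by_cases h : ω ∈ E i
            · simp [h]
            · simp [h]
          rw [h2]
          exact Nat.cast_le.2 (hK ω _ (Finset.filter_subset _ _) (fun i hi => (Finset.mem_filter.1 hi).2))
      _ = K := by simp
  have h3 : ENNReal.ofReal (q * 𝒞.card) ≤ ENNReal.ofReal (K : ℝ) := by
    rw [mul_comm, ENNReal.ofReal_mul (by positivity), ENNReal.ofReal_natCast, ENNReal.ofReal_natCast]
    exact h1
  exact (ENNReal.ofReal_le_ofReal_iff (by positivity)).1 h3

/-- the final theorem -/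
theorem final (α : ℝ) (hα : 1 ≤ α) (hα2 : α < 2) (q : ℝ) (hq : 0 < q) :
    ∃ c : ℝ, 0 < c ∧ ∃ n0 : ℕ, ∀ n p s : ℕ, n0 ≤ n →
      ∀ (Ω : Type) [MeasurableSpace Ω] (μ : Measure Ω) [IsProbabilityMeasure μ] (alg : Ω → PassAlg s),
      (∀ ω, ∀ x : List Base, x.length = n → (alg ω).run p x ≤ opt x) →
      (∀ x : List Base, x.length = n →
        MeasurableSet {ω | (opt x : ℝ) ≤ α * (alg ω).run p x} ∧
        ENNReal.ofReal q ≤ μ {ω | (opt x : ℝ) ≤ α * (alg ω).run p x}) →
      c * n ≤ p * s := by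
  have hη : 0 < 1 / α - 1 / 2 := by
    have : 1 / 2 < 1 / α := one_div_lt_one_div_of_lt (by linarith) hα2
    linarith
  obtain ⟨L, M0, hL, hfam⟩ := hard_family (1 / α - 1 / 2) hη
  obtain ⟨k, hk⟩ := exists_nat_gt (1 / q)
  have hLR : (0 : ℝ) < L := by exact_mod_cast hL
  refine ⟨1 / (16 * L), by positivity, 2 * L * (max M0 (2 * k + 1) + 1), ?_⟩
  intro n p s hn Ω _ μ _ alg h1 h2
  set M := n / (2 * L) with hM
  have hMge : max M0 (2 * k + 1) ≤ M := by
    rw [hM, Nat.le_div_iff_mul_le (by positivity)]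
    calc max M0 (2 * k + 1) * (2 * L) ≤ 2 * L * (max M0 (2 * k + 1) + 1) := by
          rw [mul_comm]; exact Nat.mul_le_mul_left _ (Nat.le_succ _)
      _ ≤ n := hn
  have hn1 : n = 2 * L * M + n % (2 * L) := (Nat.div_add_mod n (2 * L)).symm
  have hmod : n % (2 * L) < 2 * L := Nat.mod_lt _ (by positivity)
  obtain ⟨ι, hdec, 𝒞, u, v, hcard, hu, hv, hopt, hopt2⟩ :=
    hfam M (n % (2 * L)) (le_trans (le_max_left _ _) hMge) hmod
  have hlen : ∀ i j, (u i ++ v j).length = n := by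
    intro i j
    rw [List.length_append, hu, hv]
    have : 2 * L * M = M * L + M * L := by ring
    omega
  have hαpos : 0 < α := by linarith
  have hav := average μ 𝒞 (fun i => {ω | (opt (u i ++ v i) : ℝ) ≤ α * (alg ω).run p (u i ++ v i)})
    (fun i _ => (h2 _ (hlen i i)).1) q (fun i _ => (h2 _ (hlen i i)).2) (2 ^ (2 * s * p)) (by
      intro ω A hA hA2
      refine card_le (alg ω) p (M * L) (M * L + n % (2 * L)) u v hu hv A ?_
      intro i hi j hj hij heq
      have e1 : (alg ω).run p (u i ++ v j) ≤ opt (u i ++ v j) := h1 ω _ (hlen i j)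
      have e2 := hopt2 i (hA hi) j (hA hj) hij
      have e3 : (opt (u j ++ v j) : ℝ) ≤ α * (alg ω).run p (u j ++ v j) := hA2 j hj
      have e4 : ((M * L : ℕ) : ℝ) ≤ opt (u j ++ v j) := by exact_mod_cast hopt j
      rw [heq] at e1
      have e5 : (1 / 2 + (1 / α - 1 / 2)) * ((M * L : ℕ) : ℝ) = ((M * L : ℕ) : ℝ) / α := by ring
      rw [e5] at e2
      have e6 : ((M * L : ℕ) : ℝ) / α ≤ (alg ω).run p (u j ++ v j) := by
        rw [div_le_iff₀ hαpos]
        linarith
      linarith)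
  -- `q 2^M ≤ 2^(2sp)`
  have hq2 : q * 2 ^ M ≤ 2 ^ (2 * s * p) := by
    calc q * 2 ^ M ≤ q * 𝒞.card := by
          refine mul_le_mul_of_nonneg_left ?_ hq.le
          exact_mod_cast hcard
      _ ≤ ((2 ^ (2 * s * p) : ℕ) : ℝ) := hav
      _ = 2 ^ (2 * s * p) := by push_cast; rfl
  have hk2 : (1 : ℝ) ≤ q * 2 ^ k := by
    have h5 : (1 / q) < (2 : ℝ) ^ k := lt_trans hk (by exact_mod_cast Nat.lt_two_pow_self)
    rw [div_lt_iff₀ hq] at h5
    linarith
  have hMk : 2 * k + 1 ≤ M := le_trans (le_max_right _ _) hMge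
  have hle : M ≤ 2 * s * p + k := by
    by_contra hcon
    push Not at hcon
    have h6 : (2 : ℝ) ^ (2 * s * p + k) < 2 ^ M := pow_lt_pow_right₀ (by norm_num) hcon
    rw [pow_add] at h6
    have h7 : (2 : ℝ) ^ (2 * s * p) ≤ q * 2 ^ k * 2 ^ (2 * s * p) := by
      have : (0 : ℝ) ≤ 2 ^ (2 * s * p) := by positivity
      nlinarith
    have h8 : q * ((2 : ℝ) ^ (2 * s * p) * 2 ^ k) < q * 2 ^ M := mul_lt_mul_of_pos_left h6 hq
    nlinarith
  have h9 : n ≤ 16 * L * (s * p) := by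
    have h10 : M ≤ 4 * (s * p) := by
      have : 2 * s * p = 2 * (s * p) := by ring
      omega
    have h11 : n ≤ 2 * L * M + 2 * L * M := by
      have : 2 * L * 1 ≤ 2 * L * M := Nat.mul_le_mul_left _ (by omega)
      omega
    calc n ≤ 2 * L * M + 2 * L * M := h11
      _ = 4 * L * M := by ring
      _ ≤ 4 * L * (4 * (s * p)) := Nat.mul_le_mul_left _ h10
      _ = 16 * L * (s * p) := by ring
  have h12 : (n : ℝ) ≤ 16 * L * (s * p) := by exact_mod_cast h9
  rw [div_mul_eq_mul_div, one_mul, div_le_iff₀ (by positivity)]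
  linarith

end MP8D
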