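import Pool.Agent.Lib.MP_8c24b6_lc_det.Main
import Pool.Agent.Lib.MP_8c24b6_lc_det.ErSum
import Pool.Agent.Lib.MP_8c24b6_lc_det.ChainL
import Pool.Agent.Lib.MP_8c24b6_lc_det.FoldS

/-!
Upper bound for `opt` of the hard strings (assembly, done).
-/

namespace MP8D

open MP8C Finset

theorem opt_hard {B T : ℕ} (hB : 2 ≤ B) (hB2 : 2 ∣ B) {t t' : ℕ → ℕ} (ht : ∀ i, t i < T)
    (ht' : ∀ i, t' i < T) (M m k : ℕ)
    (hk : ∀ Q : Finset (ℕ × ℕ), Chain t t' M Q → Q.card ≤ k) :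
    4 * opt (partA B T t (M * B ^ (2 * T)) ++ partB B T t' (M * B ^ (2 * T)) m) ≤
      2 * (M * B ^ (2 * T)) + 62 * (M + 1) * B ^ (2 * T - 1) + 4 * (B ^ (2 * T) * k) + 4 * m := by
  obtain ⟨P, S, R, hP, hS, hR, h1, h2, hc⟩ := fold_split B T t t' (M * B ^ (2 * T)) m
  have hm := main_ineq hB hB2 ht ht' P.card _ _ P S R rfl hP hS hR h1 h2
  have hE1 := Er_le hB hB2 ht M
  have hE2 := Er_le hB hB2 ht' M
  have hp := (pot_bound hB hB2 ht ht' (M * B ^ (2 * T)) (M * B ^ (2 * T))).2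
  have hL : 0 < B ^ (2 * T) := by positivity
  obtain ⟨Q, hQ, hQc⟩ := chain_of_align (L := B ^ (2 * T)) (M := M) hL t t'
    (P.filter (fun p => t (p.1 / B ^ (2 * T)) = t' (p.2 / B ^ (2 * T)))) (by
      intro p hp'
      rw [mem_filter] at hp'
      have := hP.1 p hp'.1
      exact ⟨this.1, this.2.1, hp'.2⟩) (by
      intro p hp' q hq'
      rw [mem_filter] at hp' hq'
      exact hP.2 p hp'.1 q hq'.1)
  have hQk : 2 * B ^ (2 * T) * Q.card ≤ 2 * B ^ (2 * T) * k := Nat.mul_le_mul_left _ (hk Q hQ)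
  have e1 : 28 * (M + 1) * B ^ (2 * T - 1) = 28 * ((M + 1) * B ^ (2 * T - 1)) := by ring
  have e2 : 62 * (M + 1) * B ^ (2 * T - 1) = 62 * ((M + 1) * B ^ (2 * T - 1)) := by ring
  have e3 : 2 * B ^ (2 * T) * k = 2 * (B ^ (2 * T) * k) := by ring
  have e4 : B ^ (2 * T - 1) ≤ (M + 1) * B ^ (2 * T - 1) := by nlinarith [Nat.zero_le (M * B ^ (2 * T - 1))]
  rw [e1] at hE1 hE2
  rw [e2]
  rw [e3] at hQk
  omega

end MP8D
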