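import Pool.Agent.Lib.MP_8c24b6_lc_det.Diag
import Pool.Agent.Lib.MP_8c24b6_lc_det.Horiz

/-!
Module 6 (60 min). The main inequality, by induction on the number of cross pairs.

`P` = cross pairs, `S` = pairs inside the first word, `R` = pairs inside the second word; a pair of `S` does not
enclose or touch the first coordinate of a cross pair, and similarly for `R`.
`self_count`: a family of disjoint `A`-`U` pairs in `[x,X)` has at most `#A` and at most `#U` members (map a pair to
its `A`, respectively its `U`: injective).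
If `P = ∅`: `horiz` from `(0,0)` to `(X,0)`, `verti` to `(X,Y)`, `pot_zero`.
Otherwise let `(x,y)` be the last cross pair (maximal first, hence maximal second coordinate).  The pairs of `S` lie in
`[0,x)` or in `[x+1,X)`, those of `R` in `[0,y)` or `[y+1,Y)`.  Induction hypothesis for `P` without `(x,y)` on
`[0,x) × [0,y)`, then `diag` at `(x,y)`, `horiz` from `x+1` to `X` (second coordinate `y+1`), `verti` from `y+1` to `Y`.
-/

namespace MP8D

open MP8C Finset

private theorem self_count_aux {w : ℕ → Base} {x X : ℕ} {S : Finset (ℕ × ℕ)} (h : SelfPairs w x X S)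
    (β γ : Base) (_hβγ : β ≠ γ)
    (h1 : ∀ p ∈ S, (w p.1 = β ∧ w p.2 = γ) ∨ (w p.1 = γ ∧ w p.2 = β)) :
    S.card ≤ cnt β w x X := by
  classical
  unfold cnt
  refine Finset.card_le_card_of_injOn (fun p => if w p.1 = β then p.1 else p.2) ?_ ?_
  · intro p hp
    have hp' := h.1 p hp
    have h1' := h1 p hp
    simp only [Finset.coe_filter, Finset.mem_Ico, Set.mem_ofPred_eq]
    split_ifs with h2
    · exact ⟨⟨hp'.1, by omega⟩, h2⟩
    · rcases h1' with h3 | h3
      · exact absurd h3.1 h2
      · exact ⟨⟨by omega, hp'.2.2.1⟩, h3.2⟩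
  · intro p hp q hq hpq
    by_contra hne
    have h3 := h.2 p hp q hq hne
    simp only at hpq
    split_ifs at hpq
    · exact h3.1 hpq
    · exact h3.2.1 hpq
    · exact h3.2.2.1 hpq
    · exact h3.2.2.2 hpq

theorem self_count {w : ℕ → Base} {x X : ℕ} {S : Finset (ℕ × ℕ)} (h : SelfPairs w x X S) :
    S.card ≤ cnt Base.A w x X ∧ S.card ≤ cnt Base.U w x X := by
  constructor
  · exact self_count_aux h Base.A Base.U (by decide) (fun p hp => (h.1 p hp).2.2.2)
  · exact self_count_aux h Base.U Base.A (by decide) (fun p hp => (h.1 p hp).2.2.2.symm)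

theorem Main_self_filter {w : ℕ → Base} {x X : ℕ} {S : Finset (ℕ × ℕ)} (h : SelfPairs w x X S)
    (q : ℕ × ℕ → Prop) [DecidablePred q] {x' X' : ℕ}
    (hq : ∀ p ∈ S, q p → x' ≤ p.1 ∧ p.2 < X') : SelfPairs w x' X' (S.filter q) := by
  constructor
  · intro p hp
    rw [mem_filter] at hp
    have h1 := h.1 p hp.1
    have h2 := hq p hp.1 hp.2
    exact ⟨h2.1, h1.2.1, h2.2, h1.2.2.2⟩
  · intro p hp q' hq' hne
    rw [mem_filter] at hp hq'
    exact h.2 p hp.1 q' hq'.1 hne

/-- splitting a family of self pairs at a position that is neither touched nor enclosed -/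
theorem Main_self_split {w : ℕ → Base} {X x : ℕ} {S : Finset (ℕ × ℕ)} (h : SelfPairs w 0 X S)
    (hx : ∀ p ∈ S, x < p.1 ∨ p.2 < x) :
    SelfPairs w 0 x (S.filter (fun p => p.2 < x)) ∧ SelfPairs w (x + 1) X (S.filter (fun p => x < p.1)) ∧
      S.card = (S.filter (fun p => p.2 < x)).card + (S.filter (fun p => x < p.1)).card := by
  refine ⟨Main_self_filter h _ ?_, Main_self_filter h _ ?_, ?_⟩
  · intro p _ hp
    exact ⟨Nat.zero_le _, hp⟩
  · intro p hpS hp
    exact ⟨hp, (h.1 p hpS).2.2.1⟩
  · rw [← Finset.card_union_of_disjoint]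
    · congr 1
      ext p
      simp only [mem_union, mem_filter]
      constructor
      · intro hp
        rcases hx p hp with h1 | h1
        · exact Or.inr ⟨hp, h1⟩
        · exact Or.inl ⟨hp, h1⟩
      · rintro (hp | hp)
        · exact hp.1
        · exact hp.1
    · rw [Finset.disjoint_left]
      intro p hp hp'
      rw [mem_filter] at hp hp'
      have := h.1 p hp.1
      omega

theorem main_ineq {B T : ℕ} (hB : 2 ≤ B) (hB2 : 2 ∣ B) {t t' : ℕ → ℕ} (ht : ∀ i, t i < T)
    (ht' : ∀ i, t' i < T) (n : ℕ) : ∀ (X Y : ℕ) (P S R : Finset (ℕ × ℕ)), P.card = n →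
      Align (word B T t) (word B T t') X Y P →
      SelfPairs (word B T t) 0 X S → SelfPairs (word B T t') 0 Y R →
      (∀ p ∈ S, ∀ q ∈ P, q.1 < p.1 ∨ p.2 < q.1) → (∀ p ∈ R, ∀ q ∈ P, q.2 < p.1 ∨ p.2 < q.2) →
      4 * (P.card + S.card + R.card) ≤ pot B T t t' X Y + Er B T t X + Er B T t' Y +
        2 * (P.filter (fun p => t (p.1 / B ^ (2 * T)) = t' (p.2 / B ^ (2 * T)))).card := by
  induction n with
  | zero =>
    intro X Y P S R hn _ hS hR _ _
    have hP : P = ∅ := Finset.card_eq_zero.1 hn
    subst hP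
    have hs := self_count hS
    have hr := self_count hR
    have h1 := horiz hB hB2 ht ht' (Y := 0) (Nat.zero_le X) hs.1 hs.2
    have h2 := verti hB hB2 ht ht' (X := X) (Nat.zero_le Y) hr.1 hr.2
    have h3 := pot_zero B T t t'
    simp only [Finset.card_empty, Finset.filter_empty]
    omega
  | succ n ih =>
    intro X Y P S R hn hP hS hR hSP hRP
    have hne : P.Nonempty := by
      rw [← Finset.card_pos]; omega
    obtain ⟨p, hp, hmax⟩ := Finset.exists_max_image P (fun p => p.1) hne
    obtain ⟨hpX, hpY, hpw⟩ := hP.1 p hp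
    have hmax2 : ∀ q ∈ P, q ≠ p → q.1 < p.1 ∧ q.2 < p.2 := by
      intro q hq hqp
      have h1 := hmax q hq
      have h2 := hP.2 q hq p hp
      have h3 := hP.2 p hp q hq
      rcases lt_or_eq_of_le h1 with h4 | h4
      · exact ⟨h4, h2.1 h4⟩
      · exfalso
        apply hqp
        have h5 : q.2 = p.2 := by
          rcases lt_trichotomy q.2 p.2 with h6 | h6 | h6
          · have := h2.2 h6; omega
          · exact h6
          · have := h3.2 h6; omega
        exact Prod.ext h4 h5
    obtain ⟨hS1, hS2, hSc⟩ := Main_self_split hS (fun q hq => hSP q hq p hp)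
    obtain ⟨hR1, hR2, hRc⟩ := Main_self_split hR (fun q hq => hRP q hq p hp)
    have hPe : (P.erase p).card = n := by
      rw [Finset.card_erase_of_mem hp]; omega
    have hI := ih p.1 p.2 (P.erase p) (S.filter (fun q => q.2 < p.1)) (R.filter (fun q => q.2 < p.2)) hPe
      ⟨by
        intro q hq
        rw [mem_erase] at hq
        have h1 := hmax2 q hq.2 hq.1
        exact ⟨h1.1, h1.2, (hP.1 q hq.2).2.2⟩, by
        intro q hq q' hq'
        rw [mem_erase] at hq hq'
        exact hP.2 q hq.2 q' hq'.2⟩ hS1 hR1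
      (by
        intro s hs q hq
        rw [mem_filter] at hs
        rw [mem_erase] at hq
        exact hSP s hs.1 q hq.2)
      (by
        intro s hs q hq
        rw [mem_filter] at hs
        rw [mem_erase] at hq
        exact hRP s hs.1 q hq.2)
    have hd := diag hB hB2 ht ht' hpw
    have hs := self_count hS2
    have hr := self_count hR2
    have h1 := horiz hB hB2 ht ht' (Y := p.2 + 1) (show p.1 + 1 ≤ X from hpX) hs.1 hs.2
    have h2 := verti hB hB2 ht ht' (X := X) (show p.2 + 1 ≤ Y from hpY) hr.1 hr.2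
    have hfil : (P.filter (fun q => t (q.1 / B ^ (2 * T)) = t' (q.2 / B ^ (2 * T)))).card =
        ((P.erase p).filter (fun q => t (q.1 / B ^ (2 * T)) = t' (q.2 / B ^ (2 * T)))).card +
          (if t (p.1 / B ^ (2 * T)) = t' (p.2 / B ^ (2 * T)) then 1 else 0) := by
      conv_lhs => rw [← Finset.insert_erase hp]
      rw [Finset.filter_insert]
      split_ifs with h
      · rw [Finset.card_insert_of_notMem]
        intro hmem
        rw [mem_filter, mem_erase] at hmem
        exact hmem.1.1 rfl
      · rfl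
    have hPc : P.card = (P.erase p).card + 1 := by omega
    rw [hfil, hSc, hRc, hPc]
    split_ifs at hd ⊢ <;> omega

end MP8D
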