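import Pool.Agent.Lib.MP_8c24b6_lc_det.CntW

/-!
Module 3 (30 min). Bounds for the potential.  From `cntA_bound`, `cntU_bound`, `cntC_bound`, with
`a ≤ T - 1`: `B^(2a+1) ≤ B^(2T-1)`, `B^(2a) ≤ B^(2T-1)`.
-/

namespace MP8D

open MP8C Finset

theorem gw_bound {B : ℕ} (hB : 2 ≤ B) (hB2 : 2 ∣ B) (a x : ℕ) {β : Base} (hβ : β ≠ Base.G) :
    x ≤ gw B a β x + 4 * B ^ (2 * a + 1) ∧ gw B a β x ≤ x + 4 * B ^ (2 * a + 1) := by
  have hp : B ^ (2 * a) ≤ B ^ (2 * a + 1) := Nat.pow_le_pow_right (by omega) (by omega)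
  cases β with
  | A => exact cntA_bound hB hB2 a x
  | U => exact cntU_bound hB hB2 a x
  | C =>
    have h := cntC_bound hB a x
    simp only [gw]
    omega
  | G => exact absurd rfl hβ

theorem gwC_bound {B : ℕ} (hB : 2 ≤ B) (a x : ℕ) :
    x ≤ gw B a Base.C x + 2 * B ^ (2 * a) ∧ gw B a Base.C x ≤ x + 2 * B ^ (2 * a) :=
  cntC_bound hB a x

theorem gw_succ (B a x : ℕ) (β : Base) (hβ : lt B a x = β) :
    gw B a β (x + 1) + (if β = Base.C then 2 else 0) = gw B a β x + 4 := by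
  cases β with
  | A => simp only [gw, cnt_succ, hβ]; simp; ring
  | U => simp only [gw, cnt_succ, hβ]; simp; ring
  | C => simp only [gw, cnt_succ, hβ]; simp; ring
  | G => exact absurd hβ (lt_ne_G B a x)

theorem gwC_succ (B a x : ℕ) :
    gw B a Base.C (x + 1) = gw B a Base.C x + (if lt B a x = Base.C then 2 else 0) := by
  simp only [gw, cnt_succ]
  split_ifs <;> ring

theorem PotB_cnt_mono (β : Base) (w : ℕ → Base) {x y : ℕ} (h : x ≤ y) : cnt β w 0 x ≤ cnt β w 0 y := by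
  rw [cnt_add β w (Nat.zero_le x) h]
  exact Nat.le_add_right _ _

theorem gw_mono (B a : ℕ) (β : Base) {x y : ℕ} (h : x ≤ y) : gw B a β x ≤ gw B a β y := by
  cases β with
  | A => exact Nat.mul_le_mul_left _ (PotB_cnt_mono _ _ h)
  | U => exact Nat.mul_le_mul_left _ (PotB_cnt_mono _ _ h)
  | C => exact Nat.mul_le_mul_left _ (PotB_cnt_mono _ _ h)
  | G => exact le_rfl

theorem pot_symm (B T : ℕ) (t t' : ℕ → ℕ) (x y : ℕ) : pot B T t t' x y = pot B T t' t y x := by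
  unfold pot
  by_cases h1 : t (x / B ^ (2 * T)) < t' (y / B ^ (2 * T))
  · rw [if_pos h1, if_neg (by omega), if_pos h1]
  · rw [if_neg h1]
    by_cases h2 : t' (y / B ^ (2 * T)) < t (x / B ^ (2 * T))
    · rw [if_pos h2, if_pos h2]
    · rw [if_neg h2, if_neg h2, if_neg h1, add_comm]

theorem PotB_word_ne_G (B T : ℕ) (t : ℕ → ℕ) (x : ℕ) : word B T t x ≠ Base.G := lt_ne_G _ _ _

private theorem potB_aux {B T : ℕ} (hB : 2 ≤ B) (hB2 : 2 ∣ B) {a b : ℕ} (hab : a < b) (hb : b < T)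
    {β : Base} (hβ : β ≠ Base.G) (x y : ℕ) :
    x + y ≤ gw B a β x + gw B b Base.C y + 6 * B ^ (2 * T - 1) ∧
      gw B a β x + gw B b Base.C y ≤ x + y + 6 * B ^ (2 * T - 1) := by
  have h1 := gw_bound hB hB2 a x hβ
  have h2 := gwC_bound hB b y
  have h3 : B ^ (2 * a + 1) ≤ B ^ (2 * T - 1) := Nat.pow_le_pow_right (by omega) (by omega)
  have h4 : B ^ (2 * b) ≤ B ^ (2 * T - 1) := Nat.pow_le_pow_right (by omega) (by omega)
  omega

theorem pot_bound {B T : ℕ} (hB : 2 ≤ B) (hB2 : 2 ∣ B) {t t' : ℕ → ℕ} (ht : ∀ i, t i < T)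
    (ht' : ∀ i, t' i < T) (x y : ℕ) :
    x + y ≤ pot B T t t' x y + 6 * B ^ (2 * T - 1) ∧
      pot B T t t' x y ≤ x + y + 6 * B ^ (2 * T - 1) := by
  unfold pot
  split_ifs with h1 h2
  · exact potB_aux hB hB2 h1 (ht' _) (PotB_word_ne_G _ _ _ _) x y
  · have h := potB_aux hB hB2 h2 (ht _) (PotB_word_ne_G B T t x) y x
    omega
  · omega

theorem pot_zero (B T : ℕ) (t t' : ℕ → ℕ) : pot B T t t' 0 0 = 0 := by
  have h : ∀ a β, gw B a β 0 = 0 := by
    intro a β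
    cases β <;> simp [gw, cnt]
  unfold pot
  split_ifs <;> simp [h]

theorem Er_succ (B T : ℕ) (t : ℕ → ℕ) (x : ℕ) : Er B T t (x + 1) = Er B T t x + er B T t (x + 1) := by
  unfold Er
  rw [Finset.sum_Ico_succ_top (by omega)]

theorem Er_mono (B T : ℕ) (t : ℕ → ℕ) {x y : ℕ} (h : x ≤ y) : Er B T t x ≤ Er B T t y := by
  induction y, h using Nat.le_induction with
  | base => exact le_rfl
  | succ y _ ih =>
    rw [Er_succ]
    omega

/-- the error of a position in `(x,y]` is contained in `Er y - Er x` -/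
theorem Er_mem (B T : ℕ) (t : ℕ → ℕ) {x y i : ℕ} (h1 : x < i) (h2 : i ≤ y) :
    Er B T t x + er B T t i ≤ Er B T t y := by
  obtain ⟨j, rfl⟩ : ∃ j, i = j + 1 := ⟨i - 1, by omega⟩
  have h3 := Er_succ B T t j
  have h4 := Er_mono B T t h2
  have h5 := Er_mono B T t (show x ≤ j by omega)
  omega

end MP8D
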