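import Pool.Agent.Lib.MP_8c24b6_lc.RnaDefs

/-!
MP_8c24b6_lc, deterministic lower bound: the model of computation (definitions of the final statement).
-/

namespace MP8D

open MP8C

/-- a streaming algorithm with `s` bits of memory (`2 ^ s` memory states); the transition may also depend on the
number `j` of letters read so far (in all passes together), so the algorithm is non-uniform -/
structure PassAlg (s : ℕ) where
  start : Fin (2 ^ s)
  step : ℕ → Fin (2 ^ s) → Base → Fin (2 ^ s)
  out : Fin (2 ^ s) → ℝ

/-- the memory state after reading the list, starting at time `j` in the state `q` -/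
def PassAlg.read {s : ℕ} (alg : PassAlg s) : ℕ → Fin (2 ^ s) → List Base → Fin (2 ^ s)
  | _, q, [] => q
  | j, q, b :: x => alg.read (j + 1) (alg.step j q b) x

/-- the memory state after `p` passes over `x` -/
def PassAlg.state {s : ℕ} (alg : PassAlg s) (x : List Base) : ℕ → Fin (2 ^ s)
  | 0 => alg.start
  | p + 1 => alg.read (p * x.length) (alg.state x p) x

/-- the output after `p` passes over `x` -/
def PassAlg.run {s : ℕ} (alg : PassAlg s) (p : ℕ) (x : List Base) : ℝ := alg.out (alg.state x p)

end MP8D
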